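import Pool.Agent.Helper11.AA.Val

/-! # Linear systems without common poles: at most one coordinate is not a unit -/

open MvPolynomial

namespace Pool.Agent.Helper11.AA
open Pool.Agent.Helper69.AA

variable {v : AbsoluteValue ℂ ℝ}

/-- congruence modulo the maximal ideal -/
def Cong (v : AbsoluteValue ℂ ℝ) (x y : ℂ) : Prop := v x ≤ 1 ∧ v y ≤ 1 ∧ v (x - y) < 1

lemma Cong.refl {x : ℂ} (hx : v x ≤ 1) : Cong v x x := ⟨hx, hx, by simp⟩

lemma Cong.symm {x y : ℂ} (h : Cong v x y) : Cong v y x := ⟨h.2.1, h.1, by rw [v.map_sub]; exact h.2.2⟩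

lemma Cong.add (hv : IsNonarchimedean v) {x y x' y' : ℂ} (h : Cong v x y) (h' : Cong v x' y') :
    Cong v (x + x') (y + y') := by
  refine ⟨(hv _ _).trans (max_le h.1 h'.1), (hv _ _).trans (max_le h.2.1 h'.2.1), ?_⟩
  rw [show x + x' - (y + y') = (x - y) + (x' - y') by ring]
  exact lt_of_le_of_lt (hv _ _) (max_lt h.2.2 h'.2.2)

lemma Cong.mul (hv : IsNonarchimedean v) {x y x' y' : ℂ} (h : Cong v x y) (h' : Cong v x' y') :
    Cong v (x * x') (y * y') := by
  refine ⟨?_, ?_, ?_⟩
  · rw [map_mul]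
    exact mul_le_one₀ h.1 (apply_nonneg _ _) h'.1
  · rw [map_mul]
    exact mul_le_one₀ h.2.1 (apply_nonneg _ _) h'.2.1
  · rw [show x * x' - y * y' = x * (x' - y') + (x - y) * y' by ring]
    refine lt_of_le_of_lt (hv _ _) (max_lt ?_ ?_)
    · rw [map_mul]
      exact lt_of_le_of_lt (mul_le_of_le_one_left (apply_nonneg _ _) h.1) h'.2.2
    · rw [map_mul]
      exact lt_of_le_of_lt (mul_le_of_le_one_right (apply_nonneg _ _) h'.2.1) h.2.2

lemma Cong.pow (hv : IsNonarchimedean v) {x y : ℂ} (h : Cong v x y) (a : ℕ) : Cong v (x ^ a) (y ^ a) := by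
  induction a with
  | zero =>
    rw [pow_zero, pow_zero]
    exact Cong.refl (by simp)
  | succ a ih =>
    rw [pow_succ, pow_succ]
    exact ih.mul hv h

lemma Cong.sum (hv : IsNonarchimedean v) {ι : Type*} (s : Finset ι) {f g : ι → ℂ}
    (h : ∀ i ∈ s, Cong v (f i) (g i)) : Cong v (∑ i ∈ s, f i) (∑ i ∈ s, g i) := by
  classical
  induction s using Finset.induction_on with
  | empty =>
    rw [Finset.sum_empty, Finset.sum_empty]
    exact Cong.refl (by simp)
  | insert a s ha ih =>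
    rw [Finset.sum_insert ha, Finset.sum_insert ha]
    exact (h a (Finset.mem_insert_self _ _)).add hv (ih fun i hi => h i (Finset.mem_insert_of_mem hi))

lemma Cong.unit (hv : IsNonarchimedean v) {x y : ℂ} (h : Cong v x y) (hy : v y = 1) : v x = 1 := by
  refine le_antisymm h.1 (not_lt.1 fun hx => ?_)
  have h1 : v y < 1 := by
    rw [show y = x + -(x - y) by ring]
    refine lt_of_le_of_lt (hv _ _) (max_lt hx ?_)
    rw [v.map_neg]
    exact h.2.2
  exact absurd hy h1.ne

/-- a polynomial with coefficients of absolute value at most `1` and leading coefficient a unit has no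
root outside of the unit disc -/
lemma le_one_of_root (hv : IsNonarchimedean v) {D : ℕ} {c : ℕ → ℂ} (hc : ∀ a, v (c a) ≤ 1)
    (hD : v (c D) = 1) {x : ℂ} (h : ∑ a ∈ Finset.range (D + 1), c a * x ^ a = 0) : v x ≤ 1 := by
  by_contra hx
  push Not at hx
  have hx0 : x ≠ 0 := fun h0 => by rw [h0, map_zero] at hx; exact absurd hx (not_lt.2 zero_le_one)
  have hu : v x⁻¹ < 1 := by
    rw [map_inv₀]
    exact inv_lt_one_of_one_lt₀ hx
  have h0 : Cong v x⁻¹ 0 := ⟨hu.le, by simp, by simpa using hu⟩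
  have h1 : Cong v (∑ a ∈ Finset.range (D + 1), c a * x⁻¹ ^ (D - a))
      (∑ a ∈ Finset.range (D + 1), c a * 0 ^ (D - a)) :=
    Cong.sum hv _ fun a _ => (Cong.refl (hc a)).mul hv (h0.pow hv _)
  have h2 : ∑ a ∈ Finset.range (D + 1), c a * (0 : ℂ) ^ (D - a) = c D := by
    rw [Finset.sum_range_succ, Nat.sub_self, pow_zero, mul_one, Finset.sum_eq_zero, zero_add]
    intro a ha
    rw [zero_pow, mul_zero]
    have := Finset.mem_range.1 ha
    omega
  have h3 : ∑ a ∈ Finset.range (D + 1), c a * x⁻¹ ^ (D - a) = 0 := by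
    have : ∑ a ∈ Finset.range (D + 1), c a * x⁻¹ ^ (D - a) =
        x⁻¹ ^ D * ∑ a ∈ Finset.range (D + 1), c a * x ^ a := by
      rw [Finset.mul_sum]
      refine Finset.sum_congr rfl fun a ha => ?_
      have ha' : a ≤ D := Nat.lt_succ_iff.1 (Finset.mem_range.1 ha)
      have e : x⁻¹ ^ D = x⁻¹ ^ (D - a) * x⁻¹ ^ a := by rw [← pow_add]; congr 1; omega
      rw [e, inv_pow x a]
      field_simp
    rw [this, h, mul_zero]
  have h4 := h1.unit hv (by rw [h2]; exact hD)
  rw [h3, map_zero] at h4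
  exact zero_ne_one h4

/-- the four corners of a translated polynomial -/
theorem unit_of_corners (hv : IsNonarchimedean v) {D : ℕ} {c : ℕ → ℕ → ℂ} (hc : ∀ a b, v (c a b) ≤ 1)
    {α β : ℂ} (hα : v α ≤ 1) (hβ : v β ≤ 1) (h1 : v (c D D) = 1)
    (h2 : v (∑ b ∈ Finset.range (D + 1), c D b * β ^ b) = 1)
    (h3 : v (∑ a ∈ Finset.range (D + 1), c a D * α ^ a) = 1)
    (h4 : v (∑ a ∈ Finset.range (D + 1), ∑ b ∈ Finset.range (D + 1), c a b * α ^ a * β ^ b) = 1)
    {x y : ℂ} (h : ∑ a ∈ Finset.range (D + 1), ∑ b ∈ Finset.range (D + 1),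
      c a b * (x + α) ^ a * (y + β) ^ b = 0) : v x = 1 ∨ v y = 1 := by
  by_contra hcon
  rw [not_or] at hcon
  have big : ∀ {z γ : ℂ}, v γ ≤ 1 → 1 < v z → 1 < v (z + γ) := by
    intro z γ hγ hz
    by_contra h5
    push Not at h5
    have : v z ≤ 1 := by
      rw [show z = (z + γ) + -γ by ring]
      refine (hv _ _).trans (max_le h5 ?_)
      rw [v.map_neg]
      exact hγ
    exact absurd hz (not_lt.2 this)
  have small : ∀ {z γ : ℂ}, v γ ≤ 1 → v z < 1 → Cong v (z + γ) γ := by
    intro z γ hγ hz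
    refine ⟨(hv _ _).trans (max_le hz.le hγ), hγ, ?_⟩
    rw [add_sub_cancel_right]
    exact hz
  have hX : ∑ a ∈ Finset.range (D + 1), (∑ b ∈ Finset.range (D + 1), c a b * (y + β) ^ b) * (x + α) ^ a = 0 := by
    rw [← h]
    refine Finset.sum_congr rfl fun a _ => ?_
    rw [Finset.sum_mul]
    exact Finset.sum_congr rfl fun b _ => by ring
  have hY : ∑ b ∈ Finset.range (D + 1), (∑ a ∈ Finset.range (D + 1), c a b * (x + α) ^ a) * (y + β) ^ b = 0 := by
    rw [← h, Finset.sum_comm]
    refine Finset.sum_congr rfl fun a _ => ?_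
    rw [Finset.sum_mul]
  rcases lt_or_gt_of_ne hcon.1 with hx | hx
  · rcases lt_or_gt_of_ne hcon.2 with hy | hy
    · -- both small
      have h5 : Cong v (∑ a ∈ Finset.range (D + 1), ∑ b ∈ Finset.range (D + 1),
          c a b * (x + α) ^ a * (y + β) ^ b)
          (∑ a ∈ Finset.range (D + 1), ∑ b ∈ Finset.range (D + 1), c a b * α ^ a * β ^ b) :=
        Cong.sum hv _ fun a _ => Cong.sum hv _ fun b _ =>
          ((Cong.refl (hc a b)).mul hv ((small hα hx).pow hv a)).mul hv ((small hβ hy).pow hv b)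
      have h6 := h5.unit hv h4
      rw [h, map_zero] at h6
      exact zero_ne_one h6
    · -- `y` large
      have h5 : ∀ b, Cong v (∑ a ∈ Finset.range (D + 1), c a b * (x + α) ^ a)
          (∑ a ∈ Finset.range (D + 1), c a b * α ^ a) := fun b =>
        Cong.sum hv _ fun a _ => (Cong.refl (hc a b)).mul hv ((small hα hx).pow hv a)
      have h6 := le_one_of_root hv (fun b => (h5 b).1) ((h5 D).unit hv h3) hY
      exact absurd (big hβ hy) (not_lt.2 h6)
  · rcases lt_or_gt_of_ne hcon.2 with hy | hy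
    · -- `x` large
      have h5 : ∀ a, Cong v (∑ b ∈ Finset.range (D + 1), c a b * (y + β) ^ b)
          (∑ b ∈ Finset.range (D + 1), c a b * β ^ b) := fun a =>
        Cong.sum hv _ fun b _ => (Cong.refl (hc a b)).mul hv ((small hβ hy).pow hv b)
      have h6 := le_one_of_root hv (fun a => (h5 a).1) ((h5 D).unit hv h2) hX
      exact absurd (big hα hx) (not_lt.2 h6)
    · -- both large
      have hY1 := big hβ hy
      have hY0 : y + β ≠ 0 := fun h0 => by
        rw [h0, map_zero] at hY1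
        exact absurd hY1 (not_lt.2 zero_le_one)
      have hu : v (y + β)⁻¹ < 1 := by
        rw [map_inv₀]
        exact inv_lt_one_of_one_lt₀ hY1
      have h0 : Cong v (y + β)⁻¹ 0 := ⟨hu.le, by simp, by simpa using hu⟩
      have h5 : ∀ a, Cong v (∑ b ∈ Finset.range (D + 1), c a b * (y + β)⁻¹ ^ (D - b))
          (∑ b ∈ Finset.range (D + 1), c a b * 0 ^ (D - b)) := fun a =>
        Cong.sum hv _ fun b _ => (Cong.refl (hc a b)).mul hv (h0.pow hv _)
      have h6 : ∀ a, ∑ b ∈ Finset.range (D + 1), c a b * (0 : ℂ) ^ (D - b) = c a D := by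
        intro a
        rw [Finset.sum_range_succ, Nat.sub_self, pow_zero, mul_one, Finset.sum_eq_zero, zero_add]
        intro b hb
        rw [zero_pow, mul_zero]
        have := Finset.mem_range.1 hb
        omega
      have h7 : ∀ a, ∑ b ∈ Finset.range (D + 1), c a b * (y + β)⁻¹ ^ (D - b) =
          (y + β)⁻¹ ^ D * ∑ b ∈ Finset.range (D + 1), c a b * (y + β) ^ b := by
        intro a
        rw [Finset.mul_sum]
        refine Finset.sum_congr rfl fun b hb => ?_
        have hb' : b ≤ D := Nat.lt_succ_iff.1 (Finset.mem_range.1 hb)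
        have e : (y + β)⁻¹ ^ D = (y + β)⁻¹ ^ (D - b) * (y + β)⁻¹ ^ b := by rw [← pow_add]; congr 1; omega
        rw [e, inv_pow (y + β) b]
        field_simp
      have h8 : ∑ a ∈ Finset.range (D + 1), (∑ b ∈ Finset.range (D + 1), c a b * (y + β)⁻¹ ^ (D - b)) *
          (x + α) ^ a = 0 := by
        have : ∑ a ∈ Finset.range (D + 1), (∑ b ∈ Finset.range (D + 1), c a b * (y + β)⁻¹ ^ (D - b)) *
            (x + α) ^ a = (y + β)⁻¹ ^ D * ∑ a ∈ Finset.range (D + 1),
              (∑ b ∈ Finset.range (D + 1), c a b * (y + β) ^ b) * (x + α) ^ a := by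
          rw [Finset.mul_sum]
          refine Finset.sum_congr rfl fun a _ => ?_
          rw [h7, mul_assoc]
        rw [this, hX, mul_zero]
      have h9 := le_one_of_root hv (fun a => (h5 a).1) ((h5 D).unit hv (by rw [h6]; exact h1)) h8
      exact absurd (big hα hx) (not_lt.2 h9)

end Pool.Agent.Helper11.AA
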