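import Pool.Agent.Helper11.AA.Corner
import Pool.Agent.Helper11.LC.Emb

/-! # Linear systems without common poles: no valuation has poles in two blocks -/

open MvPolynomial

namespace Pool.Agent.Helper11.AA
open Pool.Agent.Helper69.AA Pool.Agent.Helper11.LC

variable {n r : ℕ}

/-- the linear forms -/
noncomputable def lin (κ : Fin r → Fin n) (s : Fin n ⊕ Fin r → ℂ) (w : Fin r → ℂ) (i : Fin n) : ℂ :=
  s (Sum.inl i) + ∑ k with κ k = i, s (Sum.inr k) * w k

/-- the part without the constant -/
noncomputable def phi (κ : Fin r → Fin n) (s : Fin r → ℂ) (w : Fin r → ℂ) (i : Fin n) : ℂ :=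
  ∑ k with κ k = i, s k * w k

section val

variable {B : ValuationSubring ℂ}

/-- algebraic numbers are units of valuation rings which are trivial on `ℤ` -/
lemma val_alg (hB : ∀ k : ℤ, k ≠ 0 → B.valuation (k : ℂ) = 1) {c : ℂ} (hc : IsAlgebraic ℚ c) :
    B.valuation c ≤ 1 := by
  have hq : ∀ q : ℚ, algebraMap ℚ ℂ q ∈ B := by
    intro q
    rw [← B.valuation_le_one_iff, eq_ratCast]
    rcases eq_or_ne q 0 with rfl | hq
    · simp
    · have h1 : ((q : ℚ) : ℂ) = (q.num : ℂ) / ((q.den : ℤ) : ℂ) := by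
        rw [Int.cast_natCast]
        exact Rat.cast_def q
      rw [h1, map_div₀, hB _ (Rat.num_ne_zero.2 hq), hB _ (by exact_mod_cast q.den_nz), div_one]
  have hint : IsIntegral ℚ c := hc.isIntegral
  set ψ : ℚ →+* B := (algebraMap ℚ ℂ).codRestrict B.toSubring hq with hψ
  have h2 : IsIntegral B c := by
    obtain ⟨p, hp, hp0⟩ := hint
    refine ⟨p.map ψ, hp.map ψ, ?_⟩
    rw [Polynomial.eval₂_map]
    exact hp0
  obtain ⟨y, hy⟩ := IsIntegrallyClosed.isIntegral_iff.1 h2
  rw [B.valuation_le_one_iff, ← hy]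
  exact y.2

lemma val_alg_eq (hB : ∀ k : ℤ, k ≠ 0 → B.valuation (k : ℂ) = 1) {c : ℂ} (hc : IsAlgebraic ℚ c)
    (h0 : c ≠ 0) : B.valuation c = 1 := by
  refine le_antisymm (val_alg hB hc) ?_
  have h1 := val_alg hB hc.inv
  rw [map_inv₀] at h1
  exact (inv_le_one₀ (zero_lt_iff.2 ((Valuation.ne_zero_iff _).2 h0))).1 h1

/-- a relation with a top monomial excludes common poles -/
theorem no_two_poles (hB : ∀ k : ℤ, k ≠ 0 → B.valuation (k : ℂ) = 1) {k l : Fin r} (hkl : k ≠ l)
    {f : MvPolynomial (Fin r) ℂ} (hvars : f.vars ⊆ {k, l}) (halg : ∀ m, IsAlgebraic ℚ (f.coeff m))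
    (hcor : f.coeff (corner f {k, l}) ≠ 0) {w : Fin r → ℂ} (hw : eval w f = 0)
    (hk : 1 < B.valuation (w k)) (hl : 1 < B.valuation (w l)) : False := by
  classical
  have hdeg : ∀ i, i ≠ k → i ≠ l → ∀ m ∈ f.support, m i = 0 := by
    intro i hki hkj m hm
    by_contra h
    have h1 := hvars ((mem_vars_iff_mem_support i).2 ⟨m, hm, Finsupp.mem_support_iff.2 h⟩)
    rw [Finset.mem_insert, Finset.mem_singleton] at h1
    exact h1.elim hki hkj
  have hprod : ∀ m ∈ f.support, ∏ i, w i ^ m i = w k ^ m k * w l ^ m l := by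
    intro m hm
    rw [← Finset.mul_prod_erase Finset.univ _ (Finset.mem_univ k),
      ← Finset.mul_prod_erase (Finset.univ.erase k) _ (Finset.mem_erase.2 ⟨hkl.symm, Finset.mem_univ l⟩)]
    rw [Finset.prod_eq_one (s := (Finset.univ.erase k).erase l), mul_one]
    intro i hi
    rw [Finset.mem_erase, Finset.mem_erase] at hi
    rw [hdeg i hi.2.1 hi.1 m hm, pow_zero]
  set c := corner f {k, l} with hc
  have hck : c k = f.degreeOf k := by simp [hc, corner]
  have hcl : c l = f.degreeOf l := by simp [hc, corner]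
  have hcs : c ∈ f.support := mem_support_iff.2 hcor
  have h1 : ∑ m ∈ f.support, f.coeff m * (w k ^ m k * w l ^ m l) = 0 := by
    rw [← hw, eval_eq']
    exact Finset.sum_congr rfl fun m hm => by rw [hprod m hm]
  rw [← Finset.add_sum_erase _ _ hcs] at h1
  have h2 : B.valuation (f.coeff c * (w k ^ c k * w l ^ c l)) = B.valuation (w k) ^ c k * B.valuation (w l) ^ c l := by
    rw [map_mul, map_mul, map_pow, map_pow, val_alg_eq hB (halg c) hcor, one_mul]
  have hpos : 0 < B.valuation (w k) ^ c k * B.valuation (w l) ^ c l := 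
    mul_pos (pow_pos (zero_lt_one.trans hk) _) (pow_pos (zero_lt_one.trans hl) _)
  have h3 : B.valuation (∑ m ∈ f.support.erase c, f.coeff m * (w k ^ m k * w l ^ m l)) <
      B.valuation (w k) ^ c k * B.valuation (w l) ^ c l := by
    refine Valuation.map_sum_lt _ hpos.ne' fun m hm => ?_
    rw [Finset.mem_erase] at hm
    have h4 : m k ≤ c k := by rw [hck]; exact monomial_le_degreeOf k hm.2
    have h5 : m l ≤ c l := by rw [hcl]; exact monomial_le_degreeOf l hm.2
    rw [map_mul, map_mul, map_pow, map_pow]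
    refine lt_of_le_of_lt (mul_le_of_le_one_left' (val_alg hB (halg m))) ?_
    rcases h4.lt_or_eq with h4 | h4
    · exact mul_lt_mul (pow_lt_pow_right₀ hk h4) (pow_le_pow_right₀ hl.le h5)
        (pow_pos (zero_lt_one.trans hl) _) zero_le'
    · rcases h5.lt_or_eq with h5 | h5
      · rw [h4]
        exact mul_lt_mul_of_pos_left (pow_lt_pow_right₀ hl h5) (pow_pos (zero_lt_one.trans hk) _)
      · exfalso
        apply hm.1
        ext i
        by_cases hik : i = k
        · rw [hik, h4]
        · by_cases hil : i = l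
          · rw [hil, h5]
          · rw [hdeg i hik hil m hm.2, hdeg i hik hil c hcs]
  have h6 : f.coeff c * (w k ^ c k * w l ^ c l) =
      -∑ m ∈ f.support.erase c, f.coeff m * (w k ^ m k * w l ^ m l) := by linear_combination h1
  rw [← h2, h6, Valuation.map_neg] at h3
  exact lt_irrefl _ h3

/-- a pole of a linear form is a pole of one of the functions -/
lemma exists_pole {κ : Fin r → Fin n} {s w : Fin r → ℂ} (hs : ∀ k, B.valuation (s k) ≤ 1) {i : Fin n}
    (h : 1 < B.valuation (phi κ s w i)) : ∃ k, κ k = i ∧ 1 < B.valuation (w k) := by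
  by_contra hcon
  push Not at hcon
  refine absurd h (not_lt.2 (Valuation.map_sum_le _ fun k hk => ?_))
  rw [Finset.mem_filter] at hk
  rw [map_mul]
  exact mul_le_one' (hs k) (hcon k hk.2)

end val

end Pool.Agent.Helper11.AA
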