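import Pool.Agent.Helper11.AA.Linear
import Pool.Agent.Helper36.DL.LineA

/-! # Linear systems without common poles are families in general position: the theorem -/

open MvPolynomial Finset

namespace Pool.Agent.Helper11.AA
open Pool.Agent.Helper69.AA Pool.Agent.Helper11.LC Pool.Agent.Helper11.ZP Pool.Agent.Helper36.DL

variable {n r : ℕ}

/-- a transcendental coordinate generates the others up to algebraic extensions -/
theorem alg_of_pair' {i j : Fin n} (hij : i ≠ j) {f : MvPolynomial (Fin n) ℂ} (hvars : f.vars ⊆ {i, j})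
    (halg : ∀ m, IsAlgebraic ℚ (f.coeff m)) (hf : f ≠ 0) {z : Fin n → ℂ}
    (hz : eval z f = 0) (hi : Transcendental ℤ (z i)) : IsAlgebraic (Algebra.adjoin ℤ {z i}) (z j) := by
  classical
  obtain ⟨m₀, hm₀⟩ := MvPolynomial.exists_coeff_ne_zero hf
  set S := Algebra.adjoin ℤ {z i} with hS
  set A := Subalgebra.algebraicClosure S ℂ with hA
  have hcA : ∀ m, f.coeff m ∈ A := fun m => (Subalgebra.mem_algebraicClosure _ _).2 (alg_over (halg m) S)
  have hziA : z i ∈ A := (Subalgebra.mem_algebraicClosure _ _).2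
    (isAlgebraic_algebraMap (⟨z i, Algebra.subset_adjoin rfl⟩ : S))
  have hdeg : ∀ k, k ≠ i → k ≠ j → ∀ m ∈ f.support, m k = 0 := by
    intro k hki hkj m hm
    by_contra h
    have h1 := hvars ((mem_vars_iff_mem_support k).2 ⟨m, hm, Finsupp.mem_support_iff.2 h⟩)
    rw [Finset.mem_insert, Finset.mem_singleton] at h1
    exact h1.elim hki hkj
  have hprod : ∀ m ∈ f.support, ∏ k, z k ^ m k = z i ^ m i * z j ^ m j := by
    intro m hm
    rw [← mul_prod_erase univ _ (mem_univ i), ← mul_prod_erase (univ.erase i) _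
      (mem_erase.2 ⟨hij.symm, mem_univ j⟩)]
    rw [prod_eq_one (s := (univ.erase i).erase j), mul_one]
    intro k hk
    rw [mem_erase, mem_erase] at hk
    rw [hdeg k hk.2.1 hk.1 m hm, pow_zero]
  set P : Polynomial A := ∑ m ∈ f.support, Polynomial.monomial (m j)
    (⟨f.coeff m, hcA m⟩ * (⟨z i, hziA⟩ : A) ^ m i) with hP
  have hPz : Polynomial.aeval (z j) P = 0 := by
    rw [hP, map_sum, ← hz, eval_eq']
    refine sum_congr rfl fun m hm => ?_
    rw [Polynomial.aeval_monomial, hprod m hm, ← mul_assoc]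
    rfl
  have hP0 : P ≠ 0 := by
    intro hP0
    have h1 : P.coeff (m₀ j) = 0 := by rw [hP0, Polynomial.coeff_zero]
    rw [hP, Polynomial.finsetSum_coeff] at h1
    set Q : Polynomial (algebraicClosure ℚ ℂ) := ∑ m ∈ f.support, if m j = m₀ j then
      Polynomial.monomial (m i) (⟨f.coeff m, mem_algebraicClosure_iff.2 (halg m)⟩ : algebraicClosure ℚ ℂ)
      else 0 with hQ
    have hQz : Polynomial.aeval (z i) Q = 0 := by
      rw [hQ, map_sum]
      have h2 := congrArg (fun x : A => (x : ℂ)) h1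
      simp only [AddSubmonoidClass.coe_finsetSum, ZeroMemClass.coe_zero] at h2
      rw [← h2]
      refine sum_congr rfl fun m hm => ?_
      rw [Polynomial.coeff_monomial]
      split_ifs with h3
      · rw [Polynomial.aeval_monomial]
        rfl
      · rw [map_zero]; rfl
    have hQ0 : Q ≠ 0 := by
      intro hQ0
      have h2 : Q.coeff (m₀ i) = 0 := by rw [hQ0, Polynomial.coeff_zero]
      rw [hQ, Polynomial.finsetSum_coeff] at h2
      have h3 : m₀ ∈ f.support := mem_support_iff.2 hm₀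
      rw [sum_eq_single m₀] at h2
      · rw [if_pos rfl, Polynomial.coeff_monomial, if_pos rfl] at h2
        exact hm₀ (congrArg (fun x : algebraicClosure ℚ ℂ => (x : ℂ)) h2)
      · intro m hm hne
        split_ifs with h4
        · rw [Polynomial.coeff_monomial, if_neg]
          intro h5
          apply hne
          ext k
          by_cases hki : k = i
          · rw [hki, h5]
          · by_cases hkj : k = j
            · rw [hkj, h4]
            · rw [hdeg k hki hkj m hm, hdeg k hki hkj _ h3]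
        · rw [Polynomial.coeff_zero]
      · intro h; exact absurd h3 h
    have hiQ : Transcendental ℚ (z i) := fun h => hi ((IsFractionRing.isAlgebraic_iff ℤ ℚ ℂ).2 h)
    exact hiQ.algebraicClosure ⟨Q, hQ0, hQz⟩
  have h5 : IsAlgebraic A (z j) := ⟨P, hP0, hPz⟩
  exact h5.restrictScalars S

open AlgebraicIndependent in
lemma mem_cl (s : Set ℂ) (y : ℂ) : y ∈ (matroid ℤ ℂ).closure s ↔ IsAlgebraic (Algebra.adjoin ℤ s) y := by
  rw [matroid_closure_eq]
  exact Subalgebra.mem_algebraicClosure _ _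

/-- the linear forms are algebraic over the parameters and one of them -/
theorem lin_alg {κ : Fin r → Fin n} {ss : Fin n ⊕ Fin r → ℂ} {ws : Fin r → ℂ}
    (hind : AlgebraicIndependent (Algebra.adjoin ℤ (Set.range ws)) ss)
    (hk : ∀ k, Transcendental ℤ (ws k))
    (hw : ∀ k l, IsAlgebraic (Algebra.adjoin ℤ {ws k}) (ws l)) (hsurj : Function.Surjective κ) (i j : Fin n) :
    IsAlgebraic (Algebra.adjoin ℤ (Set.range ss ∪ {lin κ ss ws i})) (lin κ ss ws j) := by
  classical
  obtain ⟨k₀, rfl⟩ := hsurj i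
  set M := AlgebraicIndependent.matroid ℤ ℂ with hM
  have htr := lin_transcendental hind (κ := κ) (hk k₀)
  set z := lin κ ss ws (κ k₀) with hz
  -- closure is closed under the operations
  have hcl : ∀ (T : Set ℂ), ∃ A : Subalgebra (Algebra.adjoin ℤ T) ℂ, ∀ y, y ∈ M.closure T ↔ y ∈ A := fun T =>
    ⟨Subalgebra.algebraicClosure (Algebra.adjoin ℤ T) ℂ, fun y => by
      rw [mem_cl]
      exact (Subalgebra.mem_algebraicClosure _ _).symm⟩
  have hlin : ∀ (T : Set ℂ), Set.range ss ⊆ T → ws k₀ ∈ M.closure T → ∀ i, lin κ ss ws i ∈ M.closure T := by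
    intro T hT h0 i
    have h1 : ∀ l, ws l ∈ M.closure T := by
      intro l
      have h2 : ws l ∈ M.closure {ws k₀} := (mem_cl _ _).2 (hw k₀ l)
      refine (M.closure_subset_closure_of_subset_closure ?_) h2
      rw [Set.singleton_subset_iff]
      exact h0
    have h2 : ∀ k, ss k ∈ M.closure T := fun k => M.subset_closure T (by simp [hM]) (hT ⟨k, rfl⟩)
    obtain ⟨A, hA⟩ := hcl T
    rw [hA]
    refine add_mem ((hA _).1 (h2 _)) (sum_mem fun k _ => mul_mem ((hA _).1 (h2 _)) ((hA _).1 (h1 _)))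
  rw [← mem_cl, Set.union_singleton]
  refine hlin _ (Set.subset_insert _ _) ?_ j
  refine Matroid.mem_closure_insert (e := z) (f := ws k₀) ?_ ?_
  · rw [mem_cl]
    exact htr
  · exact hlin _ (Set.subset_insert _ _) (M.subset_closure _ (by simp [hM]) (Set.mem_insert _ _)) _

/-- **linear systems without common poles are families in general position** -/
theorem linear_family {V : Set (Fin r → ℂ)} (hV : IsSubvariety V) (h1 : dim V = 1)
    (hc : ∀ (i : Fin r) (c : ℂ), ∃ z ∈ V, z i ≠ c) (hs : OverAlg V) {κ : Fin r → Fin n}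
    (hsurj : Function.Surjective κ)
    (hdis : ∀ k l, κ k ≠ κ l → ∃ f : MvPolynomial (Fin r) ℂ, f.vars ⊆ {k, l} ∧
      (∀ m, IsAlgebraic ℚ (f.coeff m)) ∧ f.coeff (corner f {k, l}) ≠ 0 ∧ ∀ z ∈ V, eval z f = 0) :
    ∃ (ss : Fin n ⊕ Fin r → ℂ) (zs : Fin n → ℂ), Family ss zs ∧ ∀ s, ∀ w ∈ V, lin κ s w ∈ fib ss zs s := by
  classical
  have hr : 0 < r := by
    rcases Nat.eq_zero_or_pos r with rfl | h
    · exact absurd h1 (by rw [Helper36.DL.dim_zero]; exact zero_ne_one)
    · exact h
  obtain ⟨ws, hws, htr, hgen⟩ := Helper22.DL.exists_generic hV h1 hc ⟨0, hr⟩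
  have hcount : Countable (Algebra.adjoin ℤ (Set.range ws)) := by
    have h2 : Countable (MvPolynomial (Fin r) ℤ) := Cardinal.mk_le_aleph0_iff.1
      ((MvPolynomial.cardinalMk_le_max (σ := Fin r) (R := ℤ)).trans (by simp))
    rw [Algebra.adjoin_range_eq_range_aeval]
    exact Set.countable_coe_iff.2 (Set.countable_range _)
  obtain ⟨ss, hind⟩ := exists_indep (Algebra.adjoin ℤ (Set.range ws)) hcount (Fin n ⊕ Fin r)
  have hindZ : AlgebraicIndependent ℤ ss :=
    hind.restrictScalars (algebraMap ℤ (Algebra.adjoin ℤ (Set.range ws))).injective_int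
  have hw : ∀ k l, IsAlgebraic (Algebra.adjoin ℤ {ws k}) (ws l) := by
    intro k l
    rcases eq_or_ne k l with rfl | hkl
    · exact isAlgebraic_algebraMap (⟨ws k, Algebra.subset_adjoin rfl⟩ : Algebra.adjoin ℤ {ws k})
    · obtain ⟨g, hg0, hgJ, hga, hgV⟩ := algDependent_of_overAlg hV hs {k, l} (by
        rw [card_pair hkl, h1])
      exact alg_of_pair' hkl hgJ hga hg0 (hgV ws hws) (htr k)
  refine ⟨ss, lin κ ss ws, ⟨hindZ, fun i => ?_, fun i j => ?_, ?_⟩, fun s w hw' => ?_⟩
  · obtain ⟨k₀, rfl⟩ := hsurj i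
    exact lin_transcendental hind (htr k₀)
  · exact lin_alg hind htr hw hsurj i j
  · -- the corners
    have hphi : ∀ i, phi κ (fun k => ss (Sum.inr k)) ws i ≠ 0 := by
      intro i h0
      obtain ⟨k₀, rfl⟩ := hsurj i
      refine lin_transcendental hind (htr k₀) (κ := κ) ?_
      have h2 : lin κ ss ws (κ k₀) = ss (Sum.inl (κ k₀)) := by
        have h3 : lin κ ss ws (κ k₀) = ss (Sum.inl (κ k₀)) + phi κ (fun k => ss (Sum.inr k)) ws (κ k₀) := rfl
        rw [h3, h0, add_zero]
      rw [h2]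
      exact isAlgebraic_algebraMap (⟨ss (Sum.inl (κ k₀)), Algebra.subset_adjoin ⟨_, rfl⟩⟩ :
        Algebra.adjoin ℤ (Set.range ss))
    have hP : ∀ i j : Fin n, ∃ P : MvPolynomial (Fin n ⊕ Fin r) ℤ, P ≠ 0 ∧ (i ≠ j →
        ∀ v : AbsoluteValue ℂ ℝ, IsNonarchimedean v →
        ∀ (s : Fin n ⊕ Fin r → ℂ) (z : Fin n → ℂ), z ∈ fib ss (lin κ ss ws) s → (∀ k, v (s k) ≤ 1) →
          (v (aeval s P) ≤ 1 ∧ (v (aeval s P) = 1 → v (z i) = 1 ∨ v (z j) = 1))) := by
      intro i j
      rcases eq_or_ne i j with rfl | hij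
      · exact ⟨1, one_ne_zero, fun h => absurd rfl h⟩
      · obtain ⟨P, hP0, hP⟩ := corner_pair hindZ (fun k l hkl => by
          obtain ⟨f, hf1, hf2, hf3, hf4⟩ := hdis k l hkl
          exact ⟨f, hf1, hf2, hf3, hf4 ws hws⟩) hphi hij
        exact ⟨P, hP0, fun _ => hP⟩
    choose P hP0 hP using hP
    refine ⟨∏ i, ∏ j, if i = j then 1 else P i j, ?_, ?_⟩
    · refine prod_ne_zero_iff.2 fun i _ => prod_ne_zero_iff.2 fun j _ => ?_
      split_ifs
      · exact one_ne_zero
      · exact hP0 i j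
    · intro v hv s z hz hs' hone i j hij
      rw [map_prod, map_prod] at hone
      simp only [map_prod] at hone
      have hle : ∀ i j, v (aeval s (if i = j then 1 else P i j)) ≤ 1 := by
        intro i j
        split_ifs with h
        · rw [map_one, map_one]
        · exact (hP i j h v hv s z hz hs').1
      have hle2 : ∀ i, ∏ j, v (aeval s (if i = j then 1 else P i j)) ≤ 1 := fun i =>
        prod_le_one (fun _ _ => apply_nonneg _ _) fun j _ => hle i j
      have key : ∀ {ι : Type} [Fintype ι] (f : ι → ℝ), (∀ i, 0 ≤ f i) → (∀ i, f i ≤ 1) → ∏ i, f i = 1 →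
          ∀ i, f i = 1 := by
        intro ι _ f h0 hf hprod i
        refine le_antisymm (hf i) (not_lt.1 fun h => ?_)
        rw [← mul_prod_erase univ f (mem_univ i)] at hprod
        have h2 : ∏ k ∈ univ.erase i, f k ≤ 1 := prod_le_one (fun _ _ => h0 _) fun k _ => hf k
        have h3 : f i * ∏ k ∈ univ.erase i, f k < 1 := lt_of_le_of_lt (mul_le_of_le_one_right (h0 i) h2) h
        exact absurd hprod h3.ne
      have h2 := key _ (fun i => prod_nonneg fun _ _ => apply_nonneg _ _) hle2 hone i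
      have h3 := key _ (fun _ => apply_nonneg _ _) (hle i) h2 j
      rw [if_neg hij] at h3
      exact (hP i j hij v hv s z hz hs').2 h3
  · exact lin_mem_fib hind s fun G hG => hgen G hG w hw'

end Pool.Agent.Helper11.AA
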