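import Pool.Agent.Helper11.AA.Pair
import Pool.Agent.Helper36.DL.Descent

/-! # Linear systems without common poles are families in general position -/

open MvPolynomial

namespace Pool.Agent.Helper11.AA
open Pool.Agent.Helper69.AA Pool.Agent.Helper11.LC Pool.Agent.Helper11.ZP Pool.Agent.Helper36.DL

variable {n r : ℕ}

/-- independent parameters -/
lemma exists_indep (R : Subalgebra ℤ ℂ) (hR : Countable R) (σ : Type) [Finite σ] :
    ∃ ss : σ → ℂ, AlgebraicIndependent R ss := by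
  obtain ⟨B, hB⟩ := exists_isTranscendenceBasis R ℂ
  have h1 := IsAlgClosed.cardinal_le_max_transcendence_basis' _ hB
  have hinf : Infinite B := by
    by_contra h2
    rw [not_infinite_iff_finite] at h2
    have h3 : Cardinal.mk ℂ ≤ Cardinal.aleph0 := by
      refine h1.trans (max_le (max_le ?_ ?_) le_rfl)
      · exact Cardinal.mk_le_aleph0_iff.2 hR
      · exact Cardinal.mk_le_aleph0_iff.2 (Finite.to_countable)
    exact not_countable_complex (Set.countable_univ_iff.2 (Cardinal.mk_le_aleph0_iff.1 h3))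
  obtain ⟨e⟩ : Nonempty (σ ↪ B) := by
    obtain ⟨m, ⟨e⟩⟩ := Finite.exists_equiv_fin σ
    exact ⟨(e.toEmbedding.trans (Fin.valEmbedding)).trans (Infinite.natEmbedding B)⟩
  exact ⟨fun k => (e k : ℂ), hB.1.comp e e.injective⟩

lemma aeval_sum {σ τ : Type} (t : σ → ℂ) (y : τ → ℂ) (F : MvPolynomial (σ ⊕ τ) ℤ) :
    aeval (Sum.elim t y) F =
      eval₂ (aeval y : MvPolynomial τ ℤ →ₐ[ℤ] ℂ).toRingHom t (sumAlgEquiv ℤ σ τ F) := by
  have h : (aeval (Sum.elim t y) : MvPolynomial (σ ⊕ τ) ℤ →ₐ[ℤ] ℂ).toRingHom =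
      (eval₂Hom (aeval y : MvPolynomial τ ℤ →ₐ[ℤ] ℂ).toRingHom t).comp
        (sumAlgEquiv ℤ σ τ).toAlgHom.toRingHom := by
    ext i
    · simp
    · rcases i with i | i
      · simp
      · simp
  exact congrArg (fun g : MvPolynomial (σ ⊕ τ) ℤ →+* ℂ => g F) h

/-- the values of a polynomial at the generic point -/
lemma aeval_family {σ τ : Type} {ss : σ → ℂ} {ws : τ → ℂ}
    (hind : AlgebraicIndependent (Algebra.adjoin ℤ (Set.range ws)) ss)
    {F : MvPolynomial (σ ⊕ τ) ℤ} (hF : aeval (Sum.elim ss ws) F = 0)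
    (s : σ → ℂ) {w : τ → ℂ}
    (hw : ∀ G : MvPolynomial τ ℤ, aeval ws G = 0 → aeval w G = 0) : aeval (Sum.elim s w) F = 0 := by
  set R := Algebra.adjoin ℤ (Set.range ws) with hR
  set F' := sumAlgEquiv ℤ σ τ F with hF'
  set θ : MvPolynomial τ ℤ →ₐ[ℤ] R := aeval fun k => (⟨ws k, Algebra.subset_adjoin ⟨k, rfl⟩⟩ : R) with hθ
  have hθc : ∀ G, ((θ G : R) : ℂ) = aeval ws G := by
    intro G
    have h1 : (R.val.comp θ) = aeval ws := by
      ext k
      simp [hθ]
    exact congrArg (fun g : MvPolynomial τ ℤ →ₐ[ℤ] ℂ => g G) h1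
  have h1 : aeval ss (map θ.toRingHom F') = 0 := by
    rw [aeval_def, eval₂_map, ← hF, aeval_sum]
    congr 1
    ext G
    · simp
    · change ((θ (X G) : R) : ℂ) = aeval ws (X G)
      exact hθc _
  have h2 : map θ.toRingHom F' = 0 := by
    have := hind
    rw [algebraicIndependent_iff] at this
    exact this _ h1
  rw [aeval_sum, eval₂_eq]
  refine Finset.sum_eq_zero fun m _ => ?_
  have h3 : aeval ws (F'.coeff m) = 0 := by
    rw [← hθc]
    have h4 := congrArg (fun g => coeff m g) h2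
    simp only [coeff_map, coeff_zero] at h4
    have h5 : θ (F'.coeff m) = 0 := h4
    rw [h5]
    rfl
  have h4 : (aeval w : MvPolynomial τ ℤ →ₐ[ℤ] ℂ).toRingHom (F'.coeff m) = 0 := hw _ h3
  rw [h4, zero_mul]

/-- the linear forms as polynomials -/
noncomputable def linP (κ : Fin r → Fin n) (i : Fin n) : MvPolynomial ((Fin n ⊕ Fin r) ⊕ Fin r) ℤ :=
  X (Sum.inl (Sum.inl i)) + ∑ k with κ k = i, X (Sum.inl (Sum.inr k)) * X (Sum.inr k)

lemma aeval_linP (κ : Fin r → Fin n) (s : Fin n ⊕ Fin r → ℂ) (w : Fin r → ℂ) (i : Fin n) :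
    aeval (Sum.elim s w) (linP κ i) = lin κ s w i := by
  simp [linP, lin]

/-- the values of the linear system lie in the fibres -/
theorem lin_mem_fib {κ : Fin r → Fin n} {ss : Fin n ⊕ Fin r → ℂ} {ws : Fin r → ℂ}
    (hind : AlgebraicIndependent (Algebra.adjoin ℤ (Set.range ws)) ss) (s : Fin n ⊕ Fin r → ℂ)
    {w : Fin r → ℂ} (hw : ∀ G : MvPolynomial (Fin r) ℤ, aeval ws G = 0 → aeval w G = 0) :
    lin κ s w ∈ fib ss (lin κ ss ws) s := by
  intro F hF
  set G : MvPolynomial ((Fin n ⊕ Fin r) ⊕ Fin r) ℤ :=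
    bind₁ (Sum.elim (fun k => X (Sum.inl k)) (linP κ)) F with hG
  have h1 : ∀ (t : Fin n ⊕ Fin r → ℂ) (y : Fin r → ℂ), aeval (Sum.elim t y) G =
      aeval (Sum.elim t (lin κ t y)) F := by
    intro t y
    rw [hG, aeval_bind₁]
    congr 1
    apply congrArg
    funext k
    rcases k with k | k
    · simp
    · rw [Sum.elim_inr, Sum.elim_inr, aeval_linP]
  rw [← h1]
  refine aeval_family hind ?_ s hw
  rw [h1]
  exact hF

/-- polynomials over the ring generated by the parameters -/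
lemma exists_lift_poly {σ : Type} (ss : σ → ℂ) (g : Polynomial (Algebra.adjoin ℤ (Set.range ss)))
    (hg0 : g ≠ 0) : ∃ G : Polynomial (MvPolynomial σ ℤ), G ≠ 0 ∧ ∀ x : ℂ,
      Polynomial.eval₂ (aeval ss : MvPolynomial σ ℤ →ₐ[ℤ] ℂ).toRingHom x G = Polynomial.aeval x g := by
  set θ : MvPolynomial σ ℤ →ₐ[ℤ] Algebra.adjoin ℤ (Set.range ss) :=
    aeval fun k => (⟨ss k, Algebra.subset_adjoin ⟨k, rfl⟩⟩ : Algebra.adjoin ℤ (Set.range ss)) with hθ
  have hθc : ∀ G, ((θ G : Algebra.adjoin ℤ (Set.range ss)) : ℂ) = aeval ss G := by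
    intro G
    have h1 : ((Algebra.adjoin ℤ (Set.range ss)).val.comp θ) = aeval ss := by
      ext k
      simp [hθ]
    exact congrArg (fun g : MvPolynomial σ ℤ →ₐ[ℤ] ℂ => g G) h1
  have hsurj : Function.Surjective θ.toRingHom := by
    rintro ⟨x, hx⟩
    have hx' := hx
    rw [Algebra.adjoin_range_eq_range_aeval] at hx'
    obtain ⟨G, hG⟩ := hx'
    exact ⟨G, Subtype.ext ((hθc G).trans hG)⟩
  obtain ⟨G, hG⟩ := Polynomial.map_surjective θ.toRingHom hsurj g
  refine ⟨G, ?_, fun x => ?_⟩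
  · rintro rfl
    exact hg0 (by rw [← hG, Polynomial.map_zero])
  · rw [← hG, Polynomial.aeval_def, Polynomial.eval₂_map]
    congr 1
    ext q
    · simp
    · change aeval ss (X q) = ((θ (X q) : Algebra.adjoin ℤ (Set.range ss)) : ℂ)
      rw [hθc]

lemma aeval_int {σ : Type} (t : σ → ℤ) (q : MvPolynomial σ ℤ) : (aeval t q : ℤ) = eval t q := by
  rw [aeval_def, Subsingleton.elim (algebraMap ℤ ℤ) (RingHom.id ℤ)]
  rfl

/-- the linear forms are transcendental over the parameters -/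
theorem lin_transcendental {κ : Fin r → Fin n} {ss : Fin n ⊕ Fin r → ℂ} {ws : Fin r → ℂ}
    (hind : AlgebraicIndependent (Algebra.adjoin ℤ (Set.range ws)) ss) {k₀ : Fin r}
    (hk : Transcendental ℤ (ws k₀)) :
    Transcendental (Algebra.adjoin ℤ (Set.range ss)) (lin κ ss ws (κ k₀)) := by
  classical
  rintro ⟨g, hg0, hg⟩
  obtain ⟨G, hG0, hG⟩ := exists_lift_poly ss g hg0
  -- the polynomial in `s` and `w`
  set F : MvPolynomial ((Fin n ⊕ Fin r) ⊕ Fin r) ℤ :=
    Polynomial.eval₂ (rename Sum.inl : MvPolynomial (Fin n ⊕ Fin r) ℤ →ₐ[ℤ]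
      MvPolynomial ((Fin n ⊕ Fin r) ⊕ Fin r) ℤ).toRingHom (linP κ (κ k₀)) G with hF
  have h1 : ∀ (t : Fin n ⊕ Fin r → ℂ) (y : Fin r → ℂ), aeval (Sum.elim t y) F =
      Polynomial.eval₂ (aeval t : MvPolynomial (Fin n ⊕ Fin r) ℤ →ₐ[ℤ] ℂ).toRingHom
        (lin κ t y (κ k₀)) G := by
    intro t y
    have h2 : (aeval (Sum.elim t y) : MvPolynomial ((Fin n ⊕ Fin r) ⊕ Fin r) ℤ →ₐ[ℤ] ℂ) F =
      (aeval (Sum.elim t y) : MvPolynomial ((Fin n ⊕ Fin r) ⊕ Fin r) ℤ →ₐ[ℤ] ℂ).toRingHom F := rfl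
    rw [h2, hF, Polynomial.hom_eval₂]
    have h3 : (aeval (Sum.elim t y) : MvPolynomial ((Fin n ⊕ Fin r) ⊕ Fin r) ℤ →ₐ[ℤ] ℂ).toRingHom
      (linP κ (κ k₀)) = lin κ t y (κ k₀) := aeval_linP κ t y (κ k₀)
    rw [h3]
    congr 1
    ext q
    · simp
    · simp
  have h2 : aeval (Sum.elim ss ws) F = 0 := by
    rw [h1, hG, hg]
  -- the values at integral parameters
  have h3 : ∀ t : Fin n ⊕ Fin r → ℂ, Polynomial.eval₂ (aeval t : MvPolynomial (Fin n ⊕ Fin r) ℤ →ₐ[ℤ] ℂ).toRingHom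
      (lin κ t ws (κ k₀)) G = 0 := by
    intro t
    rw [← h1]
    exact aeval_family hind h2 t fun _ h => h
  have h4 : ∀ t : Fin n ⊕ Fin r → ℤ, aeval t G.leadingCoeff ≠ (0 : ℤ) →
      IsAlgebraic ℤ (lin κ (fun k => (t k : ℂ)) ws (κ k₀)) := by
    intro t ht
    refine ⟨G.map (aeval t : MvPolynomial (Fin n ⊕ Fin r) ℤ →ₐ[ℤ] ℤ).toRingHom, fun h0 => ht ?_, ?_⟩
    · have := congrArg (fun q => Polynomial.coeff q G.natDegree) h0
      simpa [Polynomial.coeff_map] using this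
    · rw [← h3 fun k => (t k : ℂ), Polynomial.aeval_def, Polynomial.eval₂_map]
      congr 1
      ext k
      · simp
      · simp
  -- two values
  set sh : (Fin n ⊕ Fin r → ℤ) → (Fin n ⊕ Fin r → ℤ) := fun t k => if k = Sum.inr k₀ then t k + 1 else t k
    with hsh
  set q := G.leadingCoeff with hq
  have hq0 : q ≠ 0 := Polynomial.leadingCoeff_ne_zero.2 hG0
  set q' : MvPolynomial (Fin n ⊕ Fin r) ℤ :=
    bind₁ (fun k => if k = Sum.inr k₀ then X k + 1 else X k) q with hq'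
  have h6 : ∀ t : Fin n ⊕ Fin r → ℤ, (aeval t q' : ℤ) = aeval (sh t) q := by
    intro t
    rw [hq', aeval_bind₁]
    congr 1
    apply congrArg
    funext k
    by_cases hk : k = Sum.inr k₀
    · simp [hsh, hk]
    · simp [hsh, hk]
  have hq'0 : q' ≠ 0 := by
    intro h0
    apply hq0
    refine MvPolynomial.funext fun t => ?_
    rw [map_zero]
    have h7 := h6 fun k => if k = Sum.inr k₀ then t k - 1 else t k
    rw [h0, map_zero] at h7
    have h8 : sh (fun k => if k = Sum.inr k₀ then t k - 1 else t k) = t := by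
      funext k
      by_cases hk : k = Sum.inr k₀
      · simp [hsh, hk]
      · simp [hsh, hk]
    rw [h8, aeval_int] at h7
    exact h7.symm
  obtain ⟨t, ht⟩ : ∃ t : Fin n ⊕ Fin r → ℤ, (aeval t (q * q') : ℤ) ≠ 0 := by
    by_contra hcon
    push Not at hcon
    apply mul_ne_zero hq0 hq'0
    refine MvPolynomial.funext fun t => ?_
    have := hcon t
    rw [aeval_int] at this
    rw [map_zero]
    exact this
  rw [map_mul, h6] at ht
  have h7 := h4 t (left_ne_zero_of_mul ht)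
  have h8 := h4 (sh t) (right_ne_zero_of_mul ht)
  apply hk
  have h9 : ws k₀ = lin κ (fun k => (sh t k : ℂ)) ws (κ k₀) - lin κ (fun k => (t k : ℂ)) ws (κ k₀) := by
    simp only [lin]
    have e1 : (sh t (Sum.inl (κ k₀)) : ℂ) = t (Sum.inl (κ k₀)) := by simp [hsh]
    rw [e1, add_sub_add_left_eq_sub, ← Finset.sum_sub_distrib, Finset.sum_eq_single k₀]
    · simp [hsh]
      ring
    · intro k _ hk
      have : Sum.inr k ≠ (Sum.inr k₀ : Fin n ⊕ Fin r) := fun h => hk (Sum.inr_injective h)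
      simp [hsh, hk]
    · intro h
      exact (h (Finset.mem_filter.2 ⟨Finset.mem_univ k₀, (rfl : κ k₀ = κ k₀)⟩)).elim
  rw [h9]
  exact h8.sub h7

end Pool.Agent.Helper11.AA
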