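import Pool.Agent.Helper11.AA.Disj
import Pool.Agent.Helper22.DL.Gen

/-! # Linear systems without common poles: the corner condition -/

open MvPolynomial

namespace Pool.Agent.Helper11.AA
open Pool.Agent.Helper69.AA Pool.Agent.Helper11.LC

variable {n r : ℕ}

/-- the leading coefficient of a polynomial which vanishes everywhere -/
lemma lead_eq_zero {D : ℕ} {d : ℕ → ℂ} (h : ∀ x : ℂ, ∑ a ∈ Finset.range (D + 1), d a * x ^ a = 0) :
    d D = 0 := by
  have h1 : (∑ a ∈ Finset.range (D + 1), Polynomial.monomial a (d a) : Polynomial ℂ) = 0 := by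
    refine Polynomial.funext fun x => ?_
    rw [Polynomial.eval_finsetSum, Polynomial.eval_zero, ← h x]
    exact Finset.sum_congr rfl fun a _ => Polynomial.eval_monomial
  have h2 := congrArg (fun q => Polynomial.coeff q D) h1
  simp only [Polynomial.finsetSum_coeff, Polynomial.coeff_monomial, Polynomial.coeff_zero] at h2
  rwa [Finset.sum_ite_eq' (Finset.range (D + 1)) D, if_pos (Finset.mem_range.2 (Nat.lt_succ_self D))] at h2

/-- the polynomials in the parameters are nonzero, because of the leading coefficient -/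
lemma corner_poly_ne_zero {i j : Fin n} (hij : i ≠ j) {D : ℕ} {c : ℕ → ℕ → MvPolynomial (Fin r) ℤ}
    {s' : Fin r → ℂ} (hc : aeval s' (c D D) ≠ 0) :
    (rename Sum.inr (c D D) : MvPolynomial (Fin n ⊕ Fin r) ℤ) ≠ 0 ∧
    (∑ b ∈ Finset.range (D + 1), rename Sum.inr (c D b) * (-X (Sum.inl j)) ^ b :
      MvPolynomial (Fin n ⊕ Fin r) ℤ) ≠ 0 ∧
    (∑ a ∈ Finset.range (D + 1), rename Sum.inr (c a D) * (-X (Sum.inl i)) ^ a :
      MvPolynomial (Fin n ⊕ Fin r) ℤ) ≠ 0 ∧
    (∑ a ∈ Finset.range (D + 1), ∑ b ∈ Finset.range (D + 1),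
      rename Sum.inr (c a b) * (-X (Sum.inl i)) ^ a * (-X (Sum.inl j)) ^ b :
      MvPolynomial (Fin n ⊕ Fin r) ℤ) ≠ 0 := by
  classical
  -- the values
  set t : ℂ → ℂ → Fin n ⊕ Fin r → ℂ := fun x y =>
    Sum.elim (fun k => if k = i then -x else if k = j then -y else 0) s' with ht
  have hren : ∀ (x y : ℂ) (q : MvPolynomial (Fin r) ℤ),
      aeval (t x y) (rename Sum.inr q : MvPolynomial (Fin n ⊕ Fin r) ℤ) = aeval s' q := by
    intro x y q
    rw [aeval_rename]
    rfl
  have hXi : ∀ x y : ℂ, aeval (t x y) (-X (Sum.inl i) : MvPolynomial (Fin n ⊕ Fin r) ℤ) = x := by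
    intro x y
    rw [map_neg, aeval_X]
    simp [ht]
  have hXj : ∀ x y : ℂ, aeval (t x y) (-X (Sum.inl j) : MvPolynomial (Fin n ⊕ Fin r) ℤ) = y := by
    intro x y
    rw [map_neg, aeval_X]
    simp [ht, hij.symm]
  refine ⟨fun h => ?_, fun h => ?_, fun h => ?_, fun h => ?_⟩
  · have h4 := hren 0 0 (c D D)
    rw [h, map_zero] at h4
    exact hc h4.symm
  · refine hc (lead_eq_zero (d := fun b => aeval s' (c D b)) fun y => ?_)
    have h4 := congrArg (aeval (t 0 y)) h
    rw [map_sum, map_zero] at h4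
    rw [← h4]
    exact Finset.sum_congr rfl fun b _ => by rw [map_mul, map_pow, hren, hXj]
  · refine hc (lead_eq_zero (d := fun a => aeval s' (c a D)) fun x => ?_)
    have h4 := congrArg (aeval (t x 0)) h
    rw [map_sum, map_zero] at h4
    rw [← h4]
    exact Finset.sum_congr rfl fun b _ => by rw [map_mul, map_pow, hren, hXi]
  · refine hc (lead_eq_zero (d := fun a => aeval s' (c a D)) fun x => ?_)
    refine lead_eq_zero (D := D) (d := fun b => ∑ a ∈ Finset.range (D + 1), aeval s' (c a b) * x ^ a) fun y => ?_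
    have h4 := congrArg (aeval (t x y)) h
    rw [map_sum, map_zero] at h4
    rw [← h4]
    simp only [Finset.sum_mul]
    rw [Finset.sum_comm]
    refine Finset.sum_congr rfl fun a _ => ?_
    rw [map_sum]
    exact Finset.sum_congr rfl fun b _ => by rw [map_mul, map_mul, map_pow, map_pow, hren, hXi, hXj]

/-- **the corner condition for a pair** -/
theorem corner_pair {κ : Fin r → Fin n} {ss : Fin n ⊕ Fin r → ℂ} {ws : Fin r → ℂ}
    (hind : AlgebraicIndependent ℤ ss)
    (hdis : ∀ k l, κ k ≠ κ l → ∃ f : MvPolynomial (Fin r) ℂ, f.vars ⊆ {k, l} ∧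
      (∀ m, IsAlgebraic ℚ (f.coeff m)) ∧ f.coeff (corner f {k, l}) ≠ 0 ∧ eval ws f = 0)
    (h0 : ∀ i, phi κ (fun k => ss (Sum.inr k)) ws i ≠ 0) {i j : Fin n} (hij : i ≠ j) :
    ∃ P : MvPolynomial (Fin n ⊕ Fin r) ℤ, P ≠ 0 ∧ ∀ v : AbsoluteValue ℂ ℝ, IsNonarchimedean v →
      ∀ (s : Fin n ⊕ Fin r → ℂ) (z : Fin n → ℂ), z ∈ fib ss (lin κ ss ws) s → (∀ k, v (s k) ≤ 1) →
        (v (aeval s P) ≤ 1 ∧ (v (aeval s P) = 1 → v (z i) = 1 ∨ v (z j) = 1)) := by
  classical
  set s' : Fin r → ℂ := fun k => ss (Sum.inr k) with hs'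
  have hind' : AlgebraicIndependent ℤ s' := hind.comp _ Sum.inr_injective
  obtain ⟨D, c, hc, hrel⟩ := exists_top s' (h0 i) (h0 j) (by
    rintro B hB ⟨h1, h2⟩
    have hBk : ∀ k, B.valuation (s' k) ≤ 1 := by
      intro k
      have := hB (X k) (by rw [aeval_X]; exact hind'.ne_zero k)
      rw [aeval_X] at this
      exact this.le
    have hBz : ∀ k : ℤ, k ≠ 0 → B.valuation (k : ℂ) = 1 := by
      intro k hk
      have := hB (C k) (by rw [algHom_C]; simpa using hk)
      rw [algHom_C] at this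
      simpa using this
    obtain ⟨k, hk, hk1⟩ := exists_pole hBk h1
    obtain ⟨l, hl, hl1⟩ := exists_pole hBk h2
    have hkl : κ k ≠ κ l := by rw [hk, hl]; exact hij
    obtain ⟨f, hf1, hf2, hf3, hf4⟩ := hdis k l hkl
    exact no_two_poles hBz (fun h => hkl (by rw [h])) hf1 hf2 hf3 hf4 hk1 hl1)
  obtain ⟨n1, n2, n3, n4⟩ := corner_poly_ne_zero hij hc
  set P1 : MvPolynomial (Fin n ⊕ Fin r) ℤ := rename Sum.inr (c D D) with hP1
  set P2 : MvPolynomial (Fin n ⊕ Fin r) ℤ :=
    ∑ b ∈ Finset.range (D + 1), rename Sum.inr (c D b) * (-X (Sum.inl j)) ^ b with hP2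
  set P3 : MvPolynomial (Fin n ⊕ Fin r) ℤ :=
    ∑ a ∈ Finset.range (D + 1), rename Sum.inr (c a D) * (-X (Sum.inl i)) ^ a with hP3
  set P4 : MvPolynomial (Fin n ⊕ Fin r) ℤ := ∑ a ∈ Finset.range (D + 1), ∑ b ∈ Finset.range (D + 1),
      rename Sum.inr (c a b) * (-X (Sum.inl i)) ^ a * (-X (Sum.inl j)) ^ b with hP4
  refine ⟨P1 * P2 * P3 * P4, mul_ne_zero (mul_ne_zero (mul_ne_zero n1 n2) n3) n4,
    fun v hv s z hz hs => ?_⟩
  -- values
  have hint : ∀ (τ : Type) (t : τ → ℂ), (∀ k, v (t k) ≤ 1) → ∀ F : MvPolynomial τ ℤ, v (aeval t F) ≤ 1 := by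
    intro τ t ht F
    induction F using MvPolynomial.induction_on with
    | C a =>
      rw [algHom_C]
      simpa using hv.apply_intCast_le_one (n := a)
    | add p q hp hq =>
      rw [map_add]
      exact (hv _ _).trans (max_le hp hq)
    | mul_X p k hp =>
      rw [map_mul, map_mul, aeval_X]
      exact mul_le_one₀ hp (apply_nonneg _ _) (ht k)
  have g1 := hint _ s hs P1
  have g2 := hint _ s hs P2
  have g3 := hint _ s hs P3
  have g4 := hint _ s hs P4
  refine ⟨hint _ s hs _, fun hone => ?_⟩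
  rw [map_mul, map_mul, map_mul, map_mul, map_mul, map_mul] at hone
  have key : ∀ a b : ℝ, 0 ≤ a → 0 ≤ b → a ≤ 1 → b ≤ 1 → a * b = 1 → a = 1 ∧ b = 1 := by
    intro a b ha hb ha1 hb1 hab
    constructor
    · refine le_antisymm ha1 (not_lt.1 fun h => ?_)
      have : a * b < 1 := lt_of_le_of_lt (mul_le_of_le_one_right ha hb1) h
      exact absurd hab this.ne
    · refine le_antisymm hb1 (not_lt.1 fun h => ?_)
      have : a * b < 1 := lt_of_le_of_lt (mul_le_of_le_one_left hb ha1) h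
      exact absurd hab this.ne
  have nn : ∀ F : MvPolynomial (Fin n ⊕ Fin r) ℤ, 0 ≤ v (aeval s F) := fun F => apply_nonneg _ _
  obtain ⟨e123, e4⟩ := key _ _ (mul_nonneg (mul_nonneg (nn _) (nn _)) (nn _)) (nn _)
    (mul_le_one₀ (mul_le_one₀ g1 (nn _) g2) (nn _) g3) g4 hone
  obtain ⟨e12, e3⟩ := key _ _ (mul_nonneg (nn _) (nn _)) (nn _) (mul_le_one₀ g1 (nn _) g2) g3 e123
  obtain ⟨e1, e2⟩ := key _ _ (nn _) (nn _) g1 g2 e12
  have hren : ∀ q : MvPolynomial (Fin r) ℤ, aeval s (rename Sum.inr q : MvPolynomial (Fin n ⊕ Fin r) ℤ) =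
      aeval (fun k => s (Sum.inr k)) q := by
    intro q
    rw [aeval_rename]
    rfl
  have hX : ∀ k, aeval s (-X (Sum.inl k) : MvPolynomial (Fin n ⊕ Fin r) ℤ) = -s (Sum.inl k) := by
    intro k
    rw [map_neg, aeval_X]
  refine unit_of_corners hv (c := fun a b => aeval (fun k => s (Sum.inr k)) (c a b))
    (fun a b => hint _ _ (fun k => hs _) _) (α := -s (Sum.inl i)) (β := -s (Sum.inl j))
    (by rw [v.map_neg]; exact hs _) (by rw [v.map_neg]; exact hs _) ?_ ?_ ?_ ?_ ?_ (D := D)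
  · rw [hP1, hren] at e1
    exact e1
  · rw [hP2, map_sum] at e2
    simp only [map_mul, map_pow, hren, hX] at e2
    exact e2
  · rw [hP3, map_sum] at e3
    simp only [map_mul, map_pow, hren, hX] at e3
    exact e3
  · rw [hP4, map_sum] at e4
    simp only [map_sum, map_mul, map_pow, hren, hX] at e4
    exact e4
  · -- the relation on the fibre
    set F : MvPolynomial ((Fin n ⊕ Fin r) ⊕ Fin n) ℤ :=
      ∑ a ∈ Finset.range (D + 1), ∑ b ∈ Finset.range (D + 1),
        rename (Sum.inl ∘ Sum.inr) (c a b) * (X (Sum.inr i) + -X (Sum.inl (Sum.inl i))) ^ a *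
          (X (Sum.inr j) + -X (Sum.inl (Sum.inl j))) ^ b with hF
    have hFz : ∀ (t : Fin n ⊕ Fin r → ℂ) (y : Fin n → ℂ), aeval (Sum.elim t y) F =
        ∑ a ∈ Finset.range (D + 1), ∑ b ∈ Finset.range (D + 1),
          aeval (fun k => t (Sum.inr k)) (c a b) * (y i + -t (Sum.inl i)) ^ a *
            (y j + -t (Sum.inl j)) ^ b := by
      intro t y
      rw [hF, map_sum]
      refine Finset.sum_congr rfl fun a _ => ?_
      rw [map_sum]
      refine Finset.sum_congr rfl fun b _ => ?_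
      rw [map_mul, map_mul, map_pow, map_pow, map_add, map_add, map_neg, map_neg, aeval_X, aeval_X,
        aeval_X, aeval_X, aeval_rename]
      rfl
    have h5 := hz F (by
      rw [hFz, ← hrel]
      refine Finset.sum_congr rfl fun a _ => Finset.sum_congr rfl fun b _ => ?_
      have e5 : ∀ k, lin κ ss ws k + -ss (Sum.inl k) = phi κ s' ws k := by
        intro k
        simp only [lin, phi, hs']
        ring
      rw [e5, e5])
    rw [hFz] at h5
    exact h5

end Pool.Agent.Helper11.AA
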