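import Pool.Agent.Helper11.AA.Family
import Pool.Agent.Helper36.DL.PolyImage

/-! # Curves parametrized by rational functions over `ℚ` -/

open MvPolynomial Finset

namespace Pool.Agent.Helper11.AA
open Pool.Agent.Helper11.ZP Pool.Agent.Helper11.ZU Pool.Agent.Helper36.DL Pool.Agent.Helper20.ZD

variable {r : ℕ}

/-- the value at `t` of a polynomial over `ℚ` -/
noncomputable def qev (A : Polynomial ℚ) (t : ℂ) : ℂ := Polynomial.aeval t A

/-- the point with the coordinates `A_k(t) / Q(t)` -/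
noncomputable def ratPt (A : Fin r → Polynomial ℚ) (Q : Polynomial ℚ) (t : ℂ) (k : Fin r) : ℂ :=
  qev (A k) t / qev Q t

/-- the closure of the image -/
def ratCurve (A : Fin r → Polynomial ℚ) (Q : Polynomial ℚ) : Set (Fin r → ℂ) :=
  zeroLocus ℂ (vanishingIdeal ℂ {w | ∃ t : ℂ, qev Q t ≠ 0 ∧ w = ratPt A Q t})

variable {A : Fin r → Polynomial ℚ} {Q : Polynomial ℚ}

/-- the numerator of the values of a polynomial -/
lemma exists_num (A : Fin r → Polynomial ℚ) (Q : Polynomial ℚ) (f : MvPolynomial (Fin r) ℂ) :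
    ∃ (g : Polynomial ℂ) (M : ℕ), (∀ t : ℂ, qev Q t ≠ 0 → eval (ratPt A Q t) f = g.eval t / qev Q t ^ M) ∧
      ∀ (K : Type) [Field K] [Algebra (Polynomial ℂ) K] [Algebra ℂ K] [IsScalarTower ℂ (Polynomial ℂ) K],
        algebraMap (Polynomial ℂ) K (Q.map (algebraMap ℚ ℂ)) ≠ 0 →
        aeval (fun k => algebraMap (Polynomial ℂ) K ((A k).map (algebraMap ℚ ℂ)) /
          algebraMap (Polynomial ℂ) K (Q.map (algebraMap ℚ ℂ))) f =
          algebraMap (Polynomial ℂ) K g / algebraMap (Polynomial ℂ) K (Q.map (algebraMap ℚ ℂ)) ^ M := by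
  have hev : ∀ (B : Polynomial ℚ) (t : ℂ), qev B t = (B.map (algebraMap ℚ ℂ)).eval t := fun B t => by
    rw [qev, Polynomial.aeval_def, Polynomial.eval_map]
  induction f using MvPolynomial.induction_on with
  | C a =>
    refine ⟨Polynomial.C a, 0, fun t _ => by simp, fun K _ _ _ _ _ => ?_⟩
    rw [algHom_C, pow_zero, div_one, IsScalarTower.algebraMap_apply ℂ (Polynomial ℂ) K]
    rfl
  | add f g hf hg =>
    obtain ⟨u, M, h1, h2⟩ := hf
    obtain ⟨w, N, h3, h4⟩ := hg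
    refine ⟨u * (Q.map (algebraMap ℚ ℂ)) ^ N + w * (Q.map (algebraMap ℚ ℂ)) ^ M, M + N, fun t ht => ?_,
      fun K _ _ _ _ hK => ?_⟩
    · rw [map_add, h1 t ht, h3 t ht, Polynomial.eval_add, Polynomial.eval_mul, Polynomial.eval_mul,
        Polynomial.eval_pow, Polynomial.eval_pow, ← hev, pow_add]
      field_simp
    · rw [map_add, h2 K hK, h4 K hK, map_add, map_mul, map_mul, map_pow, map_pow, pow_add]
      field_simp
  | mul_X f k hf =>
    obtain ⟨u, M, h1, h2⟩ := hf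
    refine ⟨u * (A k).map (algebraMap ℚ ℂ), M + 1, fun t ht => ?_, fun K _ _ _ _ hK => ?_⟩
    · rw [map_mul, h1 t ht, eval_X, ratPt, Polynomial.eval_mul, ← hev, pow_succ]
      field_simp
    · rw [map_mul, h2 K hK, aeval_X, map_mul, pow_succ]
      field_simp

lemma map_Q_ne (hQ : Q ≠ 0) : Q.map (algebraMap ℚ ℂ) ≠ 0 := by
  rwa [Ne, Polynomial.map_eq_zero]

/-- a polynomial vanishes on the curve if it vanishes at infinitely many parameters -/
lemma mem_van_of_infinite (hQ : Q ≠ 0) {f : MvPolynomial (Fin r) ℂ} {T : Set ℂ} (hT : T.Infinite)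
    (h : ∀ t ∈ T, qev Q t ≠ 0 → eval (ratPt A Q t) f = 0) :
    f ∈ vanishingIdeal ℂ {w | ∃ t : ℂ, qev Q t ≠ 0 ∧ w = ratPt A Q t} := by
  obtain ⟨g, M, h1, -⟩ := exists_num A Q f
  have hg : g = 0 := by
    have hfin : {t : ℂ | qev Q t = 0}.Finite := by
      have := (Q.map (algebraMap ℚ ℂ)).roots.toFinset.finite_toSet
      refine this.subset fun t ht => ?_
      rw [Finset.mem_coe, Multiset.mem_toFinset, Polynomial.mem_roots (map_Q_ne hQ), Polynomial.IsRoot.def,
        Polynomial.eval_map]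
      exact ht
    refine Polynomial.eq_zero_of_infinite_isRoot g ((hT.sdiff hfin).mono ?_)
    rintro t ⟨ht, ht2⟩
    have h2 := h t ht ht2
    rw [h1 t ht2, div_eq_zero_iff] at h2
    exact h2.resolve_right (pow_ne_zero _ ht2)
  rw [mem_van]
  rintro _ ⟨t, ht, rfl⟩
  rw [h1 t ht, hg, Polynomial.eval_zero, zero_div]

/-- the homomorphism to the field of rational functions -/
noncomputable def ratHom (A : Fin r → Polynomial ℚ) (Q : Polynomial ℚ) :
    MvPolynomial (Fin r) ℂ →ₐ[ℂ] FractionRing (Polynomial ℂ) :=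
  aeval fun k => algebraMap (Polynomial ℂ) _ ((A k).map (algebraMap ℚ ℂ)) /
    algebraMap (Polynomial ℂ) _ (Q.map (algebraMap ℚ ℂ))

lemma ker_ratHom (hQ : Q ≠ 0) : RingHom.ker (ratHom A Q) =
    vanishingIdeal ℂ {w | ∃ t : ℂ, qev Q t ≠ 0 ∧ w = ratPt A Q t} := by
  have hK : algebraMap (Polynomial ℂ) (FractionRing (Polynomial ℂ)) (Q.map (algebraMap ℚ ℂ)) ≠ 0 := by
    rw [Ne, map_eq_zero_iff _ (IsFractionRing.injective (Polynomial ℂ) _)]
    exact map_Q_ne hQ
  ext f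
  obtain ⟨g, M, h1, h2⟩ := exists_num A Q f
  have h3 := h2 (FractionRing (Polynomial ℂ)) hK
  rw [RingHom.mem_ker, ratHom, h3, mem_van, div_eq_zero_iff, or_iff_left (pow_ne_zero _ hK),
    map_eq_zero_iff _ (IsFractionRing.injective (Polynomial ℂ) _)]
  constructor
  · rintro hg _ ⟨t, ht, rfl⟩
    rw [h1 t ht, hg, Polynomial.eval_zero, zero_div]
  · intro h
    have hfin : {t : ℂ | qev Q t = 0}.Finite := by
      have := (Q.map (algebraMap ℚ ℂ)).roots.toFinset.finite_toSet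
      refine this.subset fun t ht => ?_
      rw [Finset.mem_coe, Multiset.mem_toFinset, Polynomial.mem_roots (map_Q_ne hQ), Polynomial.IsRoot.def,
        Polynomial.eval_map]
      exact ht
    refine Polynomial.eq_zero_of_infinite_isRoot g ((Set.infinite_univ.sdiff hfin).mono ?_)
    rintro t ⟨-, ht2⟩
    have h4 := h _ ⟨t, ht2, rfl⟩
    rw [h1 t ht2, div_eq_zero_iff] at h4
    exact h4.resolve_right (pow_ne_zero _ ht2)

theorem isSubvariety_ratCurve (hQ : Q ≠ 0) : IsSubvariety (ratCurve A Q) :=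
  ⟨RingHom.ker (ratHom A Q), RingHom.ker_isPrime _, by rw [ker_ratHom hQ, ratCurve]⟩

lemma van_ratCurve : vanishingIdeal ℂ (ratCurve A Q) =
    vanishingIdeal ℂ {w | ∃ t : ℂ, qev Q t ≠ 0 ∧ w = ratPt A Q t} := by
  apply le_antisymm
  · exact vanishingIdeal_anti_mono (zeroLocus_vanishingIdeal_le _)
  · exact le_vanishingIdeal_zeroLocus _

lemma ratPt_mem {t : ℂ} (ht : qev Q t ≠ 0) : ratPt A Q t ∈ ratCurve A Q :=
  zeroLocus_vanishingIdeal_le _ ⟨t, ht, rfl⟩

theorem dim_ratCurve_le (hQ : Q ≠ 0) : dim (ratCurve A Q) ≤ 1 := by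
  have h1 : Algebra.trdeg ℂ (FractionRing (Polynomial ℂ)) = 1 := by
    have h2 := _root_.trdeg_add_eq ℂ (Polynomial ℂ) (A := FractionRing (Polynomial ℂ))
    have h4 : Algebra.IsAlgebraic (Polynomial ℂ) (FractionRing (Polynomial ℂ)) :=
      IsLocalization.isAlgebraic _ (nonZeroDivisors (Polynomial ℂ))
    have h3 : Algebra.trdeg (Polynomial ℂ) (FractionRing (Polynomial ℂ)) = 0 := trdeg_eq_zero
    rw [h3, add_zero, Polynomial.trdeg_of_isDomain] at h2
    exact h2.symm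
  rw [dim, van_ratCurve, ← ker_ratHom hQ]
  have h5 : Algebra.trdeg ℂ (MvPolynomial (Fin r) ℂ ⧸ RingHom.ker (ratHom A Q)) ≤ 1 := by
    rw [← h1]
    exact trdeg_le_of_injective (Ideal.kerLiftAlg (ratHom A Q)) (Ideal.kerLiftAlg_injective (ratHom A Q))
  calc Cardinal.toNat (Algebra.trdeg ℂ (MvPolynomial (Fin r) ℂ ⧸ RingHom.ker (ratHom A Q)))
      ≤ Cardinal.toNat 1 := Cardinal.toNat_le_toNat h5 Cardinal.one_lt_aleph0
    _ = 1 := by simp

end Pool.Agent.Helper11.AA
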