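import Pool.Agent.Helper11.AA.RatCurve

/-! # Curves parametrized by rational functions over `ℚ`: rationality and poles -/

open MvPolynomial Finset

namespace Pool.Agent.Helper11.AA
open Pool.Agent.Helper11.ZP Pool.Agent.Helper11.ZU Pool.Agent.Helper36.DL Pool.Agent.Helper20.ZD

variable {r : ℕ} {A : Fin r → Polynomial ℚ} {Q : Polynomial ℚ}

lemma finite_zeros (hQ : Q ≠ 0) : {t : ℂ | qev Q t = 0}.Finite := by
  have := (Q.map (algebraMap ℚ ℂ)).roots.toFinset.finite_toSet
  refine this.subset fun t ht => ?_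
  rw [Finset.mem_coe, Multiset.mem_toFinset, Polynomial.mem_roots (map_Q_ne hQ), Polynomial.IsRoot.def,
    Polynomial.eval_map]
  exact ht

/-- a coordinate is not constant -/
lemma nonConst_ratCurve (hQ : Q ≠ 0) {k : Fin r} (hk : ∀ c : ℂ, (A k).map (algebraMap ℚ ℂ) ≠
    Polynomial.C c * Q.map (algebraMap ℚ ℂ)) (c : ℂ) : ∃ w ∈ ratCurve A Q, w k ≠ c := by
  by_contra hcon
  push Not at hcon
  apply hk c
  rw [← sub_eq_zero]
  refine Polynomial.eq_zero_of_infinite_isRoot _ ((Set.infinite_univ.sdiff (finite_zeros hQ)).mono ?_)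
  rintro t ⟨-, ht⟩
  have ht' : qev Q t ≠ 0 := ht
  have h1 := hcon _ (ratPt_mem (A := A) ht')
  rw [ratPt, div_eq_iff ht'] at h1
  have e1 : (Polynomial.map (algebraMap ℚ ℂ) (A k)).eval t = qev (A k) t := by
    rw [qev, Polynomial.aeval_def, Polynomial.eval_map]
  have e2 : (Polynomial.map (algebraMap ℚ ℂ) Q).eval t = qev Q t := by
    rw [qev, Polynomial.aeval_def, Polynomial.eval_map]
  change Polynomial.eval t _ = 0
  rw [Polynomial.eval_sub, Polynomial.eval_mul, Polynomial.eval_C, e1, e2, h1, sub_self]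

theorem dim_ratCurve (hQ : Q ≠ 0) (hr : 0 < r) (hk : ∀ k : Fin r, ∀ c : ℂ, (A k).map (algebraMap ℚ ℂ) ≠
    Polynomial.C c * Q.map (algebraMap ℚ ℂ)) : dim (ratCurve A Q) = 1 := by
  have h2 := dim_ratCurve_le (A := A) hQ
  rcases Nat.eq_zero_or_pos (dim (ratCurve A Q)) with h0 | h0
  · exfalso
    obtain ⟨c, hc⟩ := Pool.Agent.Helper36.ZU.eq_point (isSubvariety_ratCurve hQ) h0
    obtain ⟨x, hx, hne⟩ := nonConst_ratCurve hQ (hk ⟨0, hr⟩) (c ⟨0, hr⟩)
    rw [hc, Set.mem_singleton_iff] at hx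
    rw [hx] at hne
    exact hne rfl
  · omega

/-- a linear functional applied to the coefficients -/
noncomputable def mapQ (φ : ℂ →ₗ[ℚ] ℚ) (f : MvPolynomial (Fin r) ℂ) : MvPolynomial (Fin r) ℂ :=
  ∑ m ∈ f.support, monomial m ((φ (f.coeff m) : ℚ) : ℂ)

lemma coeff_mapQ (φ : ℂ →ₗ[ℚ] ℚ) (f : MvPolynomial (Fin r) ℂ) (m : Fin r →₀ ℕ) :
    (mapQ φ f).coeff m = ((φ (f.coeff m) : ℚ) : ℂ) := by
  classical
  rw [mapQ, coeff_sum]
  simp only [coeff_monomial]
  rw [Finset.sum_ite_eq' f.support m]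
  split_ifs with h
  · rfl
  · rw [notMem_support_iff.1 h, map_zero, Rat.cast_zero]

lemma mapQ_mem (hQ : Q ≠ 0) (φ : ℂ →ₗ[ℚ] ℚ) {f : MvPolynomial (Fin r) ℂ}
    (hf : f ∈ vanishingIdeal ℂ {w | ∃ t : ℂ, qev Q t ≠ 0 ∧ w = ratPt A Q t}) :
    mapQ φ f ∈ vanishingIdeal ℂ {w | ∃ t : ℂ, qev Q t ≠ 0 ∧ w = ratPt A Q t} := by
  classical
  have hinf : (Set.range fun q : ℚ => (q : ℂ)).Infinite := Set.infinite_range_of_injective Rat.cast_injective
  refine mem_van_of_infinite hQ hinf ?_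
  rintro _ ⟨q, rfl⟩ hq
  have h1 := mem_van.1 hf _ ⟨(q : ℂ), hq, rfl⟩
  -- the coordinates are rational
  have hrat : ∀ k, ∃ x : ℚ, ratPt A Q (q : ℂ) k = x := fun k => by
    refine ⟨(A k).eval q / Q.eval q, ?_⟩
    have e : ∀ B : Polynomial ℚ, qev B (q : ℂ) = ((B.eval q : ℚ) : ℂ) := fun B => by
      rw [qev]
      exact Polynomial.aeval_algebraMap_apply_eq_algebraMap_eval q B
    rw [ratPt, e, e]
    push_cast
    rfl
  choose x hx using hrat
  have hx' : ratPt A Q (q : ℂ) = fun k => (x k : ℂ) := funext hx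
  rw [hx'] at h1 ⊢
  rw [eval_eq'] at h1
  have h2 : ∑ m ∈ f.support, (∏ k, x k ^ m k) • f.coeff m = 0 := by
    rw [← h1]
    refine Finset.sum_congr rfl fun m _ => ?_
    rw [Rat.smul_def, mul_comm]
    push_cast
    rfl
  have h3 := congrArg φ h2
  rw [map_sum, map_zero] at h3
  rw [mapQ, map_sum]
  have h4 := congrArg (fun y : ℚ => (y : ℂ)) h3
  simp only [Rat.cast_zero] at h4
  rw [Rat.cast_sum] at h4
  rw [← h4]
  refine Finset.sum_congr rfl fun m _ => ?_
  rw [eval_monomial, map_smul, smul_eq_mul, mul_comm, Finsupp.prod_fintype _ _ (fun _ => pow_zero _)]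
  push_cast
  rfl

/-- the curve is defined over `ℚ` -/
theorem overAlg_ratCurve (hQ : Q ≠ 0) : OverAlg (ratCurve A Q) := by
  classical
  refine ⟨{f | f ∈ vanishingIdeal ℂ {w | ∃ t : ℂ, qev Q t ≠ 0 ∧ w = ratPt A Q t} ∧
    ∀ m, IsAlgebraic ℚ (f.coeff m)}, fun f hf => hf.2, ?_⟩
  apply Set.eq_of_subset_of_subset
  · intro z hz f hf
    exact (mem_zeroLocus_iff.1 hz) f hf.1
  · intro z hz
    rw [ratCurve, mem_zeroLocus_iff]
    intro f hf
    change eval z f = 0
    -- decompose the coefficients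
    let b := Module.Basis.ofVectorSpace ℚ ℂ
    have h1 : ∀ i, eval z (mapQ (b.coord i) f) = 0 := fun i =>
      hz _ ⟨mapQ_mem hQ _ hf, fun m => by rw [coeff_mapQ]; exact isAlgebraic_algebraMap _⟩
    set S : Finset _ := f.support.biUnion fun m => (b.repr (f.coeff m)).support with hS
    have h2 : ∀ m ∈ f.support, f.coeff m = ∑ i ∈ S, ((b.coord i (f.coeff m) : ℚ) : ℂ) * b i := by
      intro m hm
      have h3 := b.linearCombination_repr (f.coeff m)
      rw [Finsupp.linearCombination_apply, Finsupp.sum] at h3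
      rw [← Finset.sum_subset (s₁ := (b.repr (f.coeff m)).support)
        (Finset.subset_biUnion_of_mem (fun m => (b.repr (f.coeff m)).support) hm)]
      · conv_lhs => rw [← h3]
        refine Finset.sum_congr rfl fun i _ => ?_
        rw [Rat.smul_def, Module.Basis.coord_apply]
      · intro i _ hi
        rw [Module.Basis.coord_apply, Finsupp.notMem_support_iff.1 hi, Rat.cast_zero, zero_mul]
    have h4 : eval z f = ∑ i ∈ S, eval z (mapQ (b.coord i) f) * b i := by
      have h5 : ∀ i, eval z (mapQ (b.coord i) f) =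
          ∑ m ∈ f.support, ((b.coord i (f.coeff m) : ℚ) : ℂ) * ∏ k, z k ^ m k := by
        intro i
        rw [mapQ, map_sum]
        refine Finset.sum_congr rfl fun m _ => ?_
        rw [eval_monomial, Finsupp.prod_fintype _ _ (fun _ => pow_zero _)]
      simp only [h5, Finset.sum_mul]
      rw [Finset.sum_comm, eval_eq']
      refine Finset.sum_congr rfl fun m hm => ?_
      rw [h2 m hm, Finset.sum_mul]
      refine Finset.sum_congr rfl fun i _ => ?_
      rw [← h2 m hm]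
      ring
    rw [h4]
    exact Finset.sum_eq_zero fun i _ => by rw [h1, zero_mul]

end Pool.Agent.Helper11.AA
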