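import Pool.Agent.Helper11.AA.RatCurve2

/-! # The curves `t ↦ (c_i + R_i(t) / Q_i(t))` with fixed denominators -/

open MvPolynomial Finset

namespace Pool.Agent.Helper11.AA
open Pool.Agent.Helper11.ZP Pool.Agent.Helper11.ZU Pool.Agent.Helper36.DL Pool.Agent.Helper20.ZD
  Pool.Agent.Helper11.LC

variable {n r : ℕ}

/-! ### Polynomials in two of the variables -/

/-- the polynomial `∑ c_{a b} T_k ^ a T_l ^ b` -/
noncomputable def pairPoly (k l : Fin r) (D : ℕ) (c : ℕ → ℕ → ℂ) : MvPolynomial (Fin r) ℂ :=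
  ∑ a ∈ range (D + 1), ∑ b ∈ range (D + 1), monomial (Finsupp.single k a + Finsupp.single l b) (c a b)

lemma eval_pairPoly (k l : Fin r) (D : ℕ) (c : ℕ → ℕ → ℂ) (z : Fin r → ℂ) :
    eval z (pairPoly k l D c) = ∑ a ∈ range (D + 1), ∑ b ∈ range (D + 1), c a b * z k ^ a * z l ^ b := by
  rw [pairPoly, map_sum]
  refine sum_congr rfl fun a _ => ?_
  rw [map_sum]
  refine sum_congr rfl fun b _ => ?_
  have h1 : (monomial (Finsupp.single k a + Finsupp.single l b) (c a b) : MvPolynomial (Fin r) ℂ) =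
      monomial (Finsupp.single k a) (c a b) * monomial (Finsupp.single l b) 1 := by
    rw [monomial_mul, mul_one]
  rw [h1, map_mul, eval_monomial, eval_monomial, Finsupp.prod_single_index (by simp),
    Finsupp.prod_single_index (by simp), one_mul]

lemma coeff_pairPoly (k l : Fin r) (D : ℕ) (c : ℕ → ℕ → ℂ) (m : Fin r →₀ ℕ) :
    (pairPoly k l D c).coeff m = ∑ a ∈ range (D + 1), ∑ b ∈ range (D + 1),
      if Finsupp.single k a + Finsupp.single l b = m then c a b else 0 := by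
  classical
  rw [pairPoly, coeff_sum]
  refine sum_congr rfl fun a _ => ?_
  rw [coeff_sum]
  exact sum_congr rfl fun b _ => coeff_monomial _ _ _

lemma exists_of_mem_support {k l : Fin r} {D : ℕ} {c : ℕ → ℕ → ℂ} {m : Fin r →₀ ℕ}
    (h : m ∈ (pairPoly k l D c).support) :
    ∃ a b, a ≤ D ∧ b ≤ D ∧ Finsupp.single k a + Finsupp.single l b = m := by
  classical
  rw [mem_support_iff, coeff_pairPoly] at h
  obtain ⟨a, ha, h1⟩ := exists_ne_zero_of_sum_ne_zero h
  obtain ⟨b, hb, h2⟩ := exists_ne_zero_of_sum_ne_zero h1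
  rw [mem_range] at ha hb
  refine ⟨a, b, by omega, by omega, ?_⟩
  by_contra h3
  rw [if_neg h3] at h2
  exact h2 rfl

lemma coeff_pair_top {k l : Fin r} (hkl : k ≠ l) (D : ℕ) (c : ℕ → ℕ → ℂ) :
    (pairPoly k l D c).coeff (Finsupp.single k D + Finsupp.single l D) = c D D := by
  classical
  have hinj : ∀ a b, Finsupp.single k a + Finsupp.single l b =
      (Finsupp.single k D + Finsupp.single l D : Fin r →₀ ℕ) → a = D ∧ b = D := by
    intro a b h
    have h1 := DFunLike.congr_fun h k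
    have h2 := DFunLike.congr_fun h l
    simp only [Finsupp.add_apply, Finsupp.single_eq_same, Finsupp.single_eq_of_ne hkl,
      Finsupp.single_eq_of_ne hkl.symm] at h1 h2
    exact ⟨by omega, by omega⟩
  rw [coeff_pairPoly, sum_eq_single D, sum_eq_single D]
  · rw [if_pos rfl]
  · intro b _ hb
    rw [if_neg fun h => hb (hinj _ _ h).2]
  · intro h
    exact absurd (mem_range.2 (Nat.lt_succ_self D)) h
  · intro a _ ha
    refine sum_eq_zero fun b _ => ?_
    rw [if_neg fun h => ha (hinj _ _ h).1]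
  · intro h
    exact absurd (mem_range.2 (Nat.lt_succ_self D)) h

lemma pairPoly_spec {k l : Fin r} (hkl : k ≠ l) {D : ℕ} {c : ℕ → ℕ → ℂ} (hc : c D D ≠ 0)
    (halg : ∀ a b, IsAlgebraic ℚ (c a b)) :
    (pairPoly k l D c).vars ⊆ {k, l} ∧ (∀ m, IsAlgebraic ℚ ((pairPoly k l D c).coeff m)) ∧
      (pairPoly k l D c).degreeOf k = D ∧ (pairPoly k l D c).degreeOf l = D ∧
      (pairPoly k l D c).coeff (corner (pairPoly k l D c) {k, l}) ≠ 0 := by
  classical
  set f := pairPoly k l D c with hf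
  have hm0 : (Finsupp.single k D + Finsupp.single l D : Fin r →₀ ℕ) ∈ f.support := by
    rw [mem_support_iff, hf, coeff_pair_top hkl]
    exact hc
  have hk : f.degreeOf k = D := by
    refine le_antisymm (degreeOf_le_iff.2 fun m hm => ?_) ?_
    · obtain ⟨a, b, ha, hb, rfl⟩ := exists_of_mem_support hm
      rw [Finsupp.add_apply, Finsupp.single_eq_same, Finsupp.single_eq_of_ne hkl]
      omega
    · have := monomial_le_degreeOf k hm0
      rw [Finsupp.add_apply, Finsupp.single_eq_same, Finsupp.single_eq_of_ne hkl] at this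
      omega
  have hl : f.degreeOf l = D := by
    refine le_antisymm (degreeOf_le_iff.2 fun m hm => ?_) ?_
    · obtain ⟨a, b, ha, hb, rfl⟩ := exists_of_mem_support hm
      rw [Finsupp.add_apply, Finsupp.single_eq_same, Finsupp.single_eq_of_ne hkl.symm]
      omega
    · have := monomial_le_degreeOf l hm0
      rw [Finsupp.add_apply, Finsupp.single_eq_same, Finsupp.single_eq_of_ne hkl.symm] at this
      omega
  refine ⟨?_, ?_, hk, hl, ?_⟩
  · intro i hi
    rw [mem_vars_iff_mem_support] at hi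
    obtain ⟨m, hm, him⟩ := hi
    obtain ⟨a, b, -, -, rfl⟩ := exists_of_mem_support hm
    rw [Finsupp.mem_support_iff, Finsupp.add_apply] at him
    rw [mem_insert, mem_singleton]
    by_contra hcon
    rw [not_or] at hcon
    rw [Finsupp.single_eq_of_ne hcon.1, Finsupp.single_eq_of_ne hcon.2] at him
    exact him rfl
  · intro m
    rw [hf, coeff_pairPoly]
    have hmem : ∀ a b, c a b ∈ algebraicClosure ℚ ℂ := fun a b => mem_algebraicClosure_iff.2 (halg a b)
    rw [← mem_algebraicClosure_iff]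
    refine sum_mem fun a _ => sum_mem fun b _ => ?_
    split_ifs
    · exact hmem a b
    · exact zero_mem _
  · have h1 : corner f {k, l} = Finsupp.single k D + Finsupp.single l D := by
      ext i
      have h2 : corner f {k, l} i = if i ∈ ({k, l} : Finset (Fin r)) then f.degreeOf i else 0 := rfl
      rw [h2, Finsupp.add_apply]
      by_cases hik : i = k
      · subst hik
        rw [if_pos (by simp), hk, Finsupp.single_eq_same, Finsupp.single_eq_of_ne hkl, add_zero]
      · by_cases hil : i = l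
        · subst hil
          rw [if_pos (by simp), hl, Finsupp.single_eq_same, Finsupp.single_eq_of_ne hkl.symm, zero_add]
        · rw [if_neg (by simp [hik, hil]), Finsupp.single_eq_of_ne hik, Finsupp.single_eq_of_ne hil, add_zero]
    rw [h1, hf, coeff_pair_top hkl]
    exact hc

/-! ### The curve -/

/-- the product of the denominators -/
noncomputable def ratQ (Q : Fin n → Polynomial ℚ) : Polynomial ℚ := ∏ i, Q i

/-- the numerators -/
noncomputable def ratA (Q : Fin n → Polynomial ℚ) (e : Fin r → Σ i, Fin (Q i).natDegree) (k : Fin r) :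
    Polynomial ℚ := Polynomial.X ^ ((e k).2 : ℕ) * ∏ j ∈ univ.erase (e k).1, Q j

/-- the curve with the coordinates `t ^ e / Q_i(t)`, `0 ≤ e < deg Q_i` -/
def ratV (Q : Fin n → Polynomial ℚ) (e : Fin r → Σ i, Fin (Q i).natDegree) : Set (Fin r → ℂ) :=
  ratCurve (ratA Q e) (ratQ Q)

variable {Q : Fin n → Polynomial ℚ} {e : Fin r → Σ i, Fin (Q i).natDegree}

lemma qev_mul (A B : Polynomial ℚ) (t : ℂ) : qev (A * B) t = qev A t * qev B t := by simp [qev]

lemma qev_prod {ι : Type*} (s : Finset ι) (A : ι → Polynomial ℚ) (t : ℂ) :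
    qev (∏ i ∈ s, A i) t = ∏ i ∈ s, qev (A i) t := by simp [qev, map_prod]

lemma qev_ratQ (t : ℂ) : qev (ratQ Q) t ≠ 0 ↔ ∀ i, qev (Q i) t ≠ 0 := by
  rw [ratQ, qev_prod, prod_ne_zero_iff]
  simp

lemma ratPt_ratA {t : ℂ} (ht : qev (ratQ Q) t ≠ 0) (k : Fin r) :
    ratPt (ratA Q e) (ratQ Q) t k = t ^ ((e k).2 : ℕ) / qev (Q (e k).1) t := by
  have h1 := (qev_ratQ t).1 ht
  have h2 : qev (ratQ Q) t = qev (Q (e k).1) t * qev (∏ j ∈ univ.erase (e k).1, Q j) t := by
    rw [← qev_mul, mul_prod_erase univ Q (mem_univ _)]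
    rfl
  have h3 : qev (∏ j ∈ univ.erase (e k).1, Q j) t ≠ 0 := by
    intro h
    rw [h2, h, mul_zero] at ht
    exact ht rfl
  rw [ratPt, h2, ratA, qev_mul]
  have h4 : qev (Polynomial.X ^ ((e k).2 : ℕ)) t = t ^ ((e k).2 : ℕ) := by simp [qev]
  rw [h4]
  have := h1 (e k).1
  field_simp

lemma ratQ_ne (hQ : ∀ i, 0 < (Q i).natDegree) : ratQ Q ≠ 0 := by
  rw [ratQ, prod_ne_zero_iff]
  rintro i - h
  have := hQ i
  rw [h, Polynomial.natDegree_zero] at this
  exact lt_irrefl _ this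

lemma ratA_ne (hQ : ∀ i, 0 < (Q i).natDegree) (k : Fin r) (c : ℂ) :
    (ratA Q e k).map (algebraMap ℚ ℂ) ≠ Polynomial.C c * (ratQ Q).map (algebraMap ℚ ℂ) := by
  intro h
  have hq0 : ∀ i, Q i ≠ 0 := fun i h => by
    have := hQ i
    rw [h, Polynomial.natDegree_zero] at this
    exact lt_irrefl _ this
  have h1 : ratQ Q = Q (e k).1 * ∏ j ∈ univ.erase (e k).1, Q j := (mul_prod_erase univ Q (mem_univ _)).symm
  rw [h1, ratA, Polynomial.map_mul, Polynomial.map_mul, ← mul_assoc] at h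
  have h2 : (∏ j ∈ univ.erase (e k).1, Q j).map (algebraMap ℚ ℂ) ≠ 0 := by
    rw [Ne, Polynomial.map_eq_zero, ← Ne, prod_ne_zero_iff]
    exact fun i _ => hq0 i
  have h3 := mul_right_cancel₀ h2 h
  have h4 := congrArg Polynomial.natDegree h3
  rw [Polynomial.natDegree_map, Polynomial.natDegree_X_pow] at h4
  have hlt := (e k).2.2
  by_cases hc : c = 0
  · rw [hc, Polynomial.C_0, zero_mul] at h3
    rw [Polynomial.map_eq_zero] at h3
    exact pow_ne_zero _ Polynomial.X_ne_zero h3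
  · rw [Polynomial.natDegree_C_mul hc, Polynomial.natDegree_map] at h4
    omega

theorem ratV_subvariety (hQ : ∀ i, 0 < (Q i).natDegree) : IsSubvariety (ratV Q e) :=
  isSubvariety_ratCurve (ratQ_ne hQ)

theorem ratV_dim (hQ : ∀ i, 0 < (Q i).natDegree) (hr : 0 < r) : dim (ratV Q e) = 1 :=
  dim_ratCurve (ratQ_ne hQ) hr fun k c => ratA_ne hQ k c

theorem ratV_nonConst (hQ : ∀ i, 0 < (Q i).natDegree) (k : Fin r) (c : ℂ) : ∃ w ∈ ratV Q e, w k ≠ c :=
  nonConst_ratCurve (ratQ_ne hQ) (fun c => ratA_ne hQ k c) c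

theorem ratV_overAlg (hQ : ∀ i, 0 < (Q i).natDegree) : OverAlg (ratV Q e) := overAlg_ratCurve (ratQ_ne hQ)

/-! ### The poles -/

section val

variable {B : ValuationSubring ℂ}

lemma val_qev_le (hB : ∀ k : ℤ, k ≠ 0 → B.valuation (k : ℂ) = 1) (P : Polynomial ℚ) {t : ℂ}
    (ht : B.valuation t ≤ 1) : B.valuation (qev P t) ≤ 1 := by
  rw [qev, Polynomial.aeval_eq_sum_range]
  refine Valuation.map_sum_le _ fun i _ => ?_
  rw [Algebra.smul_def, map_mul, map_pow]
  exact mul_le_one' (val_alg hB (isAlgebraic_algebraMap _)) (pow_le_one' ht _)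

lemma val_qev_eq (hB : ∀ k : ℤ, k ≠ 0 → B.valuation (k : ℂ) = 1) {P : Polynomial ℚ} (hP : P ≠ 0) {t : ℂ}
    (ht : 1 < B.valuation t) : B.valuation (qev P t) = B.valuation t ^ P.natDegree := by
  rw [qev, Polynomial.aeval_eq_sum_range, sum_range_succ]
  have h1 : B.valuation (P.coeff P.natDegree • t ^ P.natDegree) = B.valuation t ^ P.natDegree := by
    rw [Algebra.smul_def, map_mul, map_pow, val_alg_eq hB (isAlgebraic_algebraMap _), one_mul]
    rw [Ne, map_eq_zero]
    exact Polynomial.leadingCoeff_ne_zero.2 hP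
  have hpos : 0 < B.valuation t ^ P.natDegree := pow_pos (zero_lt_one.trans ht) _
  have h2 : B.valuation (∑ i ∈ range P.natDegree, P.coeff i • t ^ i) < B.valuation t ^ P.natDegree := by
    refine Valuation.map_sum_lt _ hpos.ne' fun i hi => ?_
    rw [Algebra.smul_def, map_mul, map_pow]
    refine lt_of_le_of_lt (mul_le_of_le_one_left' (val_alg hB (isAlgebraic_algebraMap _))) ?_
    exact pow_lt_pow_right₀ ht (mem_range.1 hi)
  rw [Valuation.map_add_eq_of_lt_right _ (by rw [h1]; exact h2), h1]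

/-- the functions `t ^ a / P` and `t ^ a' / P'` have no common pole -/
lemma no_common_pole (hB : ∀ k : ℤ, k ≠ 0 → B.valuation (k : ℂ) = 1) {P P' : Polynomial ℚ}
    (hP : P ≠ 0) (hcop : IsCoprime P P') {a a' : ℕ} (ha : a < P.natDegree) {t : ℂ}
    (hP0 : qev P t ≠ 0) (hP0' : qev P' t ≠ 0)
    (h1 : 1 < B.valuation (t ^ a / qev P t)) (h2 : 1 < B.valuation (t ^ a' / qev P' t)) : False := by
  rcases le_or_gt (B.valuation t) 1 with ht | ht
  · have key : ∀ {P : Polynomial ℚ} {a : ℕ}, qev P t ≠ 0 → 1 < B.valuation (t ^ a / qev P t) →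
        B.valuation (qev P t) < 1 := by
      intro P a h0 h
      rw [map_div₀, map_pow] at h
      have h3 : B.valuation (qev P t) < B.valuation t ^ a :=
        (one_lt_div₀ (zero_lt_iff.2 ((Valuation.ne_zero_iff _).2 h0))).1 h
      exact lt_of_lt_of_le h3 (pow_le_one' ht _)
    have k1 := key hP0 h1
    have k2 := key hP0' h2
    obtain ⟨u, w, huw⟩ := hcop
    have h3 : qev u t * qev P t + qev w t * qev P' t = 1 := by
      rw [← qev_mul, ← qev_mul]
      have : qev (u * P) t + qev (w * P') t = qev (u * P + w * P') t := by simp [qev]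
      rw [this, huw]
      simp [qev]
    have h4 : B.valuation (qev u t * qev P t + qev w t * qev P' t) < 1 := by
      refine Valuation.map_add_lt _ ?_ ?_
      · rw [map_mul]
        exact lt_of_le_of_lt (mul_le_of_le_one_left' (val_qev_le hB u ht)) k1
      · rw [map_mul]
        exact lt_of_le_of_lt (mul_le_of_le_one_left' (val_qev_le hB w ht)) k2
    rw [h3, map_one] at h4
    exact lt_irrefl _ h4
  · rw [map_div₀, map_pow, val_qev_eq hB hP ht] at h1
    have h3 := (one_lt_div₀ (pow_pos (zero_lt_one.trans ht) _)).1 h1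
    exact absurd h3 (not_lt.2 (pow_le_pow_right₀ ht.le ha.le))

end val

/-- a polynomial relation between values at a transcendental parameter holds at all parameters -/
lemma relation_all {P P' : Polynomial ℚ} {a a' : ℕ} {D : ℕ} {c : ℕ → ℕ → ℤ} {t₀ : ℂ} (ht₀ : Transcendental ℚ t₀)
    (hP : P ≠ 0) (hP' : P' ≠ 0) (h : ∑ i ∈ range (D + 1), ∑ j ∈ range (D + 1),
      (c i j : ℂ) * (t₀ ^ a / qev P t₀) ^ i * (t₀ ^ a' / qev P' t₀) ^ j = 0) {t : ℂ} (h1 : qev P t ≠ 0)
    (h2 : qev P' t ≠ 0) : ∑ i ∈ range (D + 1), ∑ j ∈ range (D + 1),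
      (c i j : ℂ) * (t ^ a / qev P t) ^ i * (t ^ a' / qev P' t) ^ j = 0 := by
  set g : Polynomial ℚ := ∑ i ∈ range (D + 1), ∑ j ∈ range (D + 1),
    Polynomial.C (c i j : ℚ) * Polynomial.X ^ (a * i) * P ^ (D - i) * Polynomial.X ^ (a' * j) * P' ^ (D - j) with hg
  have hval : ∀ t : ℂ, qev P t ≠ 0 → qev P' t ≠ 0 → qev g t = qev P t ^ D * qev P' t ^ D *
      ∑ i ∈ range (D + 1), ∑ j ∈ range (D + 1),
        (c i j : ℂ) * (t ^ a / qev P t) ^ i * (t ^ a' / qev P' t) ^ j := by
    intro t h1 h2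
    have e1 : qev g t = ∑ i ∈ range (D + 1), ∑ j ∈ range (D + 1),
        (c i j : ℂ) * t ^ (a * i) * qev P t ^ (D - i) * t ^ (a' * j) * qev P' t ^ (D - j) := by
      simp [hg, qev, map_sum]
    rw [e1, mul_sum]
    refine sum_congr rfl fun i hi => ?_
    rw [mul_sum]
    refine sum_congr rfl fun j hj => ?_
    have hi' : i ≤ D := Nat.lt_succ_iff.1 (mem_range.1 hi)
    have hj' : j ≤ D := Nat.lt_succ_iff.1 (mem_range.1 hj)
    have e2 : qev P t ^ D = qev P t ^ i * qev P t ^ (D - i) := by rw [← pow_add]; congr 1; omega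
    have e3 : qev P' t ^ D = qev P' t ^ j * qev P' t ^ (D - j) := by rw [← pow_add]; congr 1; omega
    rw [e2, e3, div_pow, div_pow, ← pow_mul, ← pow_mul]
    field_simp
  have hne : ∀ P : Polynomial ℚ, P ≠ 0 → qev P t₀ ≠ 0 := fun P hP h0 => ht₀ ⟨P, hP, h0⟩
  have hg0 : g = 0 := by
    by_contra hg0
    apply hne g hg0
    rw [hval t₀ (hne P hP) (hne P' hP'), h, mul_zero]
  have h3 := hval t h1 h2
  rw [hg0] at h3
  have h4 : qev (0 : Polynomial ℚ) t = 0 := by simp [qev]
  rw [h4] at h3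
  rcases mul_eq_zero.1 h3.symm with h5 | h5
  · exact absurd h5 (mul_ne_zero (pow_ne_zero _ h1) (pow_ne_zero _ h2))
  · exact h5

/-- **the pole condition** -/
theorem ratV_poles (hQ : ∀ i, 0 < (Q i).natDegree) (hcop : ∀ i j, i ≠ j → IsCoprime (Q i) (Q j)) (k l : Fin r)
    (hkl : (e k).1 ≠ (e l).1) : ∃ f : MvPolynomial (Fin r) ℂ, f.vars ⊆ {k, l} ∧
      (∀ m, IsAlgebraic ℚ (f.coeff m)) ∧ f.coeff (corner f {k, l}) ≠ 0 ∧ ∀ z ∈ ratV Q e, eval z f = 0 := by
  classical
  have hne : k ≠ l := fun h => hkl (by rw [h])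
  have hq0 : ∀ i, Q i ≠ 0 := fun i h => by
    have := hQ i
    rw [h, Polynomial.natDegree_zero] at this
    exact lt_irrefl _ this
  obtain ⟨t₀, ht₀⟩ : ∃ t : ℂ, Transcendental ℚ t := by
    by_contra hcon
    push Not at hcon
    have h1 : {x : ℂ | IsAlgebraic ℚ x} = Set.univ := by
      ext x
      simp only [Set.mem_ofPred_eq, Set.mem_univ, iff_true]
      exact not_not.1 (hcon x)
    have h2 := Algebraic.countable ℚ ℂ
    rw [h1] at h2
    exact not_countable_complex h2
  have ht0 : t₀ ≠ 0 := fun h => ht₀ (h ▸ isAlgebraic_zero)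
  have hqe : ∀ i, qev (Q i) t₀ ≠ 0 := fun i h => ht₀ ⟨Q i, hq0 i, h⟩
  obtain ⟨D, c, hc, hrel⟩ := exists_top (fun x : Empty => (x.elim : ℂ))
    (x := t₀ ^ ((e k).2 : ℕ) / qev (Q (e k).1) t₀) (y := t₀ ^ ((e l).2 : ℕ) / qev (Q (e l).1) t₀)
    (div_ne_zero (pow_ne_zero _ ht0) (hqe _)) (div_ne_zero (pow_ne_zero _ ht0) (hqe _)) (by
      rintro B hB ⟨h1, h2⟩
      have hBz : ∀ k : ℤ, k ≠ 0 → B.valuation (k : ℂ) = 1 := by
        intro k hk
        have := hB (C k) (by rw [algHom_C]; simpa using hk)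
        rw [algHom_C] at this
        simpa using this
      exact no_common_pole hBz (hq0 _) (hcop _ _ hkl) (e k).2.2 (hqe _) (hqe _) h1 h2)
  -- integer coefficients
  have hint : ∀ a b, ∃ z : ℤ, aeval (fun x : Empty => (x.elim : ℂ)) (c a b) = (z : ℂ) := by
    intro a b
    refine ⟨(c a b).coeff 0, ?_⟩
    conv_lhs => rw [eq_C_of_isEmpty (c a b)]
    rw [algHom_C]
    simp
  choose z hz using hint
  simp only [hz] at hrel hc
  have hall := fun (t : ℂ) (h1 : qev (Q (e k).1) t ≠ 0) (h2 : qev (Q (e l).1) t ≠ 0) =>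
    relation_all ht₀ (hq0 _) (hq0 _) hrel (t := t) h1 h2
  obtain ⟨s1, s2, -, -, s5⟩ := pairPoly_spec hne (D := D) (c := fun a b => (z a b : ℂ)) hc
    (fun a b => by
      have : IsAlgebraic ℚ (algebraMap ℚ ℂ (z a b)) := isAlgebraic_algebraMap _
      simpa using this)
  refine ⟨_, s1, s2, s5, ?_⟩
  -- it vanishes on the curve
  have hmem : pairPoly k l D (fun a b => (z a b : ℂ)) ∈
      vanishingIdeal ℂ {w | ∃ t : ℂ, qev (ratQ Q) t ≠ 0 ∧ w = ratPt (ratA Q e) (ratQ Q) t} := by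
    rw [mem_van]
    rintro _ ⟨t, ht, rfl⟩
    rw [eval_pairPoly, ratPt_ratA ht, ratPt_ratA ht]
    exact hall t ((qev_ratQ t).1 ht _) ((qev_ratQ t).1 ht _)
  rw [← van_ratCurve] at hmem
  exact mem_van.1 hmem

/-! ### The members of the linear system -/

/-- the parameters of the curve `t ↦ (c_i + R_i(t) / Q_i(t))` -/
noncomputable def ratS (e : Fin r → Σ i, Fin (Q i).natDegree) (c : Fin n → ℚ) (R : Fin n → Polynomial ℚ) :
    Fin n ⊕ Fin r → ℚ := Sum.elim c fun k => (R (e k).1).coeff (e k).2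

/-- the point with the parameter `t` -/
noncomputable def ratMember (Q : Fin n → Polynomial ℚ) (c : Fin n → ℚ) (R : Fin n → Polynomial ℚ) (t : ℂ)
    (i : Fin n) : ℂ := c i + qev (R i) t / qev (Q i) t

lemma natDegree_lt (hQ : ∀ i, 0 < (Q i).natDegree) {R : Fin n → Polynomial ℚ}
    (hR : ∀ i, (R i).degree < (Q i).degree) (i : Fin n) : (R i).natDegree < (Q i).natDegree := by
  by_cases hR0 : R i = 0
  · rw [hR0, Polynomial.natDegree_zero]
    exact hQ i
  · exact Polynomial.natDegree_lt_natDegree hR0 (hR i)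

theorem lin_ratPt (hQ : ∀ i, 0 < (Q i).natDegree) (he : Function.Bijective e) (c : Fin n → ℚ)
    {R : Fin n → Polynomial ℚ} (hR : ∀ i, (R i).degree < (Q i).degree) {t : ℂ} (ht : qev (ratQ Q) t ≠ 0)
    (i : Fin n) :
    lin (fun k => (e k).1) (fun k => (ratS e c R k : ℂ)) (ratPt (ratA Q e) (ratQ Q) t) i =
      ratMember Q c R t i := by
  classical
  have h1 : qev (R i) t = ∑ a : Fin (Q i).natDegree, ((R i).coeff a : ℂ) * t ^ (a : ℕ) := by
    rw [qev, Polynomial.aeval_eq_sum_range' (natDegree_lt hQ hR i),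
      ← Fin.sum_univ_eq_sum_range fun a => (R i).coeff a • t ^ a]
    refine sum_congr rfl fun a _ => ?_
    rw [Rat.smul_def]
  have h2 : ∑ k with (e k).1 = i, (ratS e c R (Sum.inr k) : ℂ) * ratPt (ratA Q e) (ratQ Q) t k =
      ∑ x : Σ i, Fin (Q i).natDegree, if x.1 = i then ((R x.1).coeff x.2 : ℂ) * (t ^ (x.2 : ℕ) / qev (Q x.1) t)
        else 0 := by
    rw [sum_filter, ← Equiv.sum_comp (Equiv.ofBijective e he)]
    refine sum_congr rfl fun k _ => ?_
    rw [ratPt_ratA ht]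
    rfl
  have h3 : ∑ x : Σ i, Fin (Q i).natDegree, (if x.1 = i then ((R x.1).coeff x.2 : ℂ) *
      (t ^ (x.2 : ℕ) / qev (Q x.1) t) else 0) =
        ∑ a : Fin (Q i).natDegree, ((R i).coeff a : ℂ) * (t ^ (a : ℕ) / qev (Q i) t) := by
    rw [Fintype.sum_sigma, sum_eq_single i]
    · exact sum_congr rfl fun a _ => if_pos rfl
    · intro j _ hj
      exact sum_eq_zero fun a _ => if_neg hj
    · intro h
      exact absurd (mem_univ i) h
  rw [lin, ratMember]
  have h4 : (ratS e c R (Sum.inl i) : ℂ) = c i := rfl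
  rw [h4, h2, h3, h1, sum_div]
  congr 1
  refine sum_congr rfl fun a _ => ?_
  rw [mul_div_assoc]

/-- the points of the member with the parameter `t` -/
theorem ratMember_mem (hQ : ∀ i, 0 < (Q i).natDegree) (he : Function.Bijective e) (c : Fin n → ℚ)
    {R : Fin n → Polynomial ℚ} (hR : ∀ i, (R i).degree < (Q i).degree) {t : ℂ} (ht : ∀ i, qev (Q i) t ≠ 0) :
    ∃ w ∈ ratV Q e, lin (fun k => (e k).1) (fun k => (ratS e c R k : ℂ)) w = ratMember Q c R t :=
  ⟨ratPt (ratA Q e) (ratQ Q) t, ratPt_mem ((qev_ratQ t).2 ht),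
    funext fun i => lin_ratPt hQ he c hR ((qev_ratQ t).2 ht) i⟩

/-- a value of `R / Q` is taken at most `deg Q` times -/
lemma ncard_fibre {P S : Polynomial ℚ} (hS0 : S ≠ 0) (hS : S.natDegree < P.natDegree) (y : ℂ) :
    {t : ℂ | qev P t ≠ 0 ∧ qev S t / qev P t = y}.Finite ∧
      {t : ℂ | qev P t ≠ 0 ∧ qev S t / qev P t = y}.ncard ≤ P.natDegree := by
  classical
  set g : Polynomial ℂ := S.map (algebraMap ℚ ℂ) - Polynomial.C y * P.map (algebraMap ℚ ℂ) with hg
  have hg0 : g ≠ 0 := by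
    intro h
    rw [hg, sub_eq_zero] at h
    by_cases hy : y = 0
    · rw [hy, Polynomial.C_0, zero_mul, Polynomial.map_eq_zero] at h
      exact hS0 h
    · have h1 := congrArg Polynomial.natDegree h
      rw [Polynomial.natDegree_C_mul hy, Polynomial.natDegree_map, Polynomial.natDegree_map] at h1
      omega
  have hdeg : g.natDegree ≤ P.natDegree := by
    refine (Polynomial.natDegree_sub_le _ _).trans (max_le ?_ ?_)
    · rw [Polynomial.natDegree_map]
      exact hS.le
    · refine (Polynomial.natDegree_C_mul_le _ _).trans ?_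
      rw [Polynomial.natDegree_map]
  have hsub : {t : ℂ | qev P t ≠ 0 ∧ qev S t / qev P t = y} ⊆ (g.roots.toFinset : Set ℂ) := by
    rintro t ⟨ht, hty⟩
    rw [Finset.mem_coe, Multiset.mem_toFinset, Polynomial.mem_roots hg0, Polynomial.IsRoot, hg,
      Polynomial.eval_sub, Polynomial.eval_mul, Polynomial.eval_C, Polynomial.eval_map_algebraMap,
      Polynomial.eval_map_algebraMap]
    change qev S t - y * qev P t = 0
    rw [div_eq_iff ht] at hty
    rw [hty, sub_self]
  refine ⟨(Finset.finite_toSet _).subset hsub, ?_⟩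
  calc {t : ℂ | qev P t ≠ 0 ∧ qev S t / qev P t = y}.ncard ≤ (g.roots.toFinset : Set ℂ).ncard :=
        Set.ncard_le_ncard hsub (Finset.finite_toSet _)
    _ = g.roots.toFinset.card := Set.ncard_coe_finset _
    _ ≤ g.natDegree := (Multiset.toFinset_card_le _).trans (Polynomial.card_roots' g)
    _ ≤ P.natDegree := hdeg

/-- **the number of parameters**: the parametrization is at most `deg Q_i` to one -/
theorem ncard_ratMember {c : Fin n → ℚ} {R : Fin n → Polynomial ℚ} {i : Fin n} (hRi : R i ≠ 0)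
    (hRQ : (R i).degree < (Q i).degree) {T : Set (Fin n → ℂ)} (hT : T.Finite) :
    {t : ℂ | (∀ i, qev (Q i) t ≠ 0) ∧ ratMember Q c R t ∈ T}.Finite ∧
      {t : ℂ | (∀ i, qev (Q i) t ≠ 0) ∧ ratMember Q c R t ∈ T}.ncard ≤ (Q i).natDegree * T.ncard := by
  classical
  have hlt := Polynomial.natDegree_lt_natDegree hRi hRQ
  set F : (Fin n → ℂ) → Set ℂ := fun x => {t : ℂ | qev (Q i) t ≠ 0 ∧ qev (R i) t / qev (Q i) t = x i - c i} with hF
  have hsub : {t : ℂ | (∀ i, qev (Q i) t ≠ 0) ∧ ratMember Q c R t ∈ T} ⊆ ⋃ x ∈ hT.toFinset, F x := by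
    rintro t ⟨ht, hx⟩
    rw [Set.mem_iUnion₂]
    refine ⟨_, hT.mem_toFinset.2 hx, ht i, ?_⟩
    rw [ratMember, add_sub_cancel_left]
  have hfin : (⋃ x ∈ hT.toFinset, F x).Finite :=
    Set.Finite.biUnion (Finset.finite_toSet _) fun x _ => (ncard_fibre hRi hlt _).1
  refine ⟨hfin.subset hsub, (Set.ncard_le_ncard hsub hfin).trans ?_⟩
  refine (hT.toFinset.set_ncard_biUnion_le F).trans ?_
  rw [mul_comm, Set.ncard_eq_toFinset_card T hT, ← smul_eq_mul]
  exact Finset.sum_le_card_nsmul _ _ _ fun x _ => (ncard_fibre hRi hlt _).2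

end Pool.Agent.Helper11.AA
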