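import Pool.Agent.Helper69.AA.Defs


/-! # Relations from the absence of valuations -/

open MvPolynomial

namespace Pool.Agent.Helper11.AA
open Pool.Agent.Helper69.AA

variable {σ : Type}

/-- the evaluation as a ring homomorphism -/
noncomputable def evh (s : σ → ℂ) (x y : ℂ) : MvPolynomial (Fin 2) (MvPolynomial σ ℤ) →+* ℂ :=
  eval₂Hom (aeval s : MvPolynomial σ ℤ →ₐ[ℤ] ℂ).toRingHom ![x, y]

lemma evh_eq (s : σ → ℂ) (x y : ℂ) (H : MvPolynomial (Fin 2) (MvPolynomial σ ℤ)) :
    evh s x y H = evs s H x y := rfl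

/-- if no valuation ring of `ℂ`, trivial on `ℤ[s]`, has `x`, `y` in its maximal ideal, then there is a
relation between `x` and `y` over `ℤ[s]` with nonzero constant coefficient -/
theorem exists_rel_of_no_val (s : σ → ℂ) (x y : ℂ)
    (h : ∀ B : ValuationSubring ℂ, (∀ P : MvPolynomial σ ℤ, aeval s P ≠ 0 → B.valuation (aeval s P) = 1) →
      ¬ (B.valuation x < 1 ∧ B.valuation y < 1)) :
    ∃ G : MvPolynomial (Fin 2) (MvPolynomial σ ℤ), evs s G x y = 0 ∧ aeval s (G.coeff 0) ≠ 0 := by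
  classical
  set R : Subring ℂ := (evh s x y).range with hR
  have hxR : x ∈ R := ⟨X 0, by simp [evh]⟩
  have hyR : y ∈ R := ⟨X 1, by simp [evh]⟩
  have hsR : ∀ P : MvPolynomial σ ℤ, aeval s P ∈ R := fun P => ⟨C P, by simp [evh]⟩
  set I : Ideal R := Ideal.span {⟨x, hxR⟩, ⟨y, hyR⟩} with hI
  set M : Submonoid R :=
    { carrier := {r | ∃ P : MvPolynomial σ ℤ, aeval s P ≠ 0 ∧ (r : ℂ) = aeval s P}
      one_mem' := ⟨1, by simp, by simp⟩
      mul_mem' := by
        rintro a b ⟨P, hP, ha⟩ ⟨Q, hQ, hb⟩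
        exact ⟨P * Q, by rw [map_mul]; exact mul_ne_zero hP hQ, by rw [Subring.coe_mul, ha, hb, map_mul]⟩ } with hM
  by_cases hdis : Disjoint (I : Set R) (M : Set R)
  · exfalso
    obtain ⟨P, hP, hIP, hPM⟩ := Ideal.exists_le_prime_disjoint I M hdis
    obtain ⟨B, hB⟩ := (LocalSubring.ofPrime R P).exists_le_valuationSubring
    obtain ⟨hle, hloc⟩ := hB
    -- elements of `M` are units
    have hunit : ∀ r : R, r ∉ P → B.valuation (r : ℂ) = 1 := by
      intro r hr
      have h1 : IsUnit (algebraMap R (LocalSubring.ofPrime R P).toSubring r) :=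
        IsLocalization.map_units (M := P.primeCompl) _ ⟨r, hr⟩
      have h2 := h1.map (Subring.inclusion hle)
      have h3 := (B.valuation_eq_one_iff ⟨(r : ℂ), _⟩).1 h2
      exact h3
    have hnon : ∀ r : R, r ∈ P → B.valuation (r : ℂ) < 1 := by
      intro r hr
      have h1 : ¬ IsUnit (algebraMap R (LocalSubring.ofPrime R P).toSubring r) := by
        have := (IsLocalization.AtPrime.to_map_mem_maximal_iff (LocalSubring.ofPrime R P).toSubring P r).2 hr
        exact (IsLocalRing.mem_maximalIdeal _).1 this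
      have h2 : ¬ IsUnit (Subring.inclusion hle (algebraMap R (LocalSubring.ofPrime R P).toSubring r)) :=
        fun h3 => h1 (hloc.map_nonunit _ h3)
      exact (B.valuation_lt_one_iff ⟨(r : ℂ), _⟩).1 ((IsLocalRing.mem_maximalIdeal _).2 h2)
    refine h B (fun Q hQ => ?_) ⟨hnon ⟨x, hxR⟩ (hIP (Ideal.subset_span (by simp))),
      hnon ⟨y, hyR⟩ (hIP (Ideal.subset_span (by simp)))⟩
    refine hunit ⟨aeval s Q, hsR Q⟩ fun h1 => ?_
    exact Set.disjoint_left.1 hPM h1 ⟨Q, hQ, rfl⟩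
  · rw [Set.not_disjoint_iff] at hdis
    obtain ⟨r, hrI, Q, hQ, hrQ⟩ := hdis
    rw [SetLike.mem_coe, hI, Ideal.mem_span_pair] at hrI
    obtain ⟨⟨a, A, hA⟩, ⟨b, B, hB⟩, hab⟩ := hrI
    refine ⟨C Q - (A * X 0 + B * X 1), ?_, ?_⟩
    · rw [← evh_eq, map_sub, map_add, map_mul, map_mul, hA, hB]
      have h1 : evh s x y (C Q) = aeval s Q := by simp [evh]
      have h2 : evh s x y (X 0) = x := by simp [evh]
      have h3 : evh s x y (X 1) = y := by simp [evh]
      rw [h1, h2, h3, ← hrQ, ← hab]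
      simp
    · have h1 : (C Q - (A * X 0 + B * X 1) : MvPolynomial (Fin 2) (MvPolynomial σ ℤ)).coeff 0 = Q := by
        rw [coeff_sub, coeff_add, coeff_zero_C, ← constantCoeff_eq]
        simp
      rw [h1]
      exact hQ

/-- the double sum -/
lemma evs_eq_sum (s : σ → ℂ) (x y : ℂ) (G : MvPolynomial (Fin 2) (MvPolynomial σ ℤ)) {D : ℕ}
    (hD : G.totalDegree ≤ D) : evs s G x y = ∑ a ∈ Finset.range (D + 1), ∑ b ∈ Finset.range (D + 1),
      aeval s (G.coeff (Finsupp.single 0 a + Finsupp.single 1 b)) * x ^ a * y ^ b := by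
  classical
  have h1 : evs s G x y = ∑ m ∈ G.support, aeval s (G.coeff m) * x ^ m 0 * y ^ m 1 := by
    rw [evs, eval₂_eq']
    refine Finset.sum_congr rfl fun m _ => ?_
    rw [Fin.prod_univ_two]
    simp [mul_assoc]
  rw [h1, ← Finset.sum_product']
  have hinv : ∀ m : Fin 2 →₀ ℕ, Finsupp.single 0 (m 0) + Finsupp.single 1 (m 1) = m := by
    intro m
    ext i
    fin_cases i <;> simp
  refine Finset.sum_bij_ne_zero (fun m _ _ => (m 0, m 1)) ?_ ?_ ?_ ?_
  · intro m hm _
    have h2 := le_totalDegree hm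
    rw [Finsupp.sum_fintype _ _ (fun _ => rfl), Fin.sum_univ_two] at h2
    simp only [Finset.mem_product, Finset.mem_range]
    omega
  · intro m hm _ m' hm' _ heq
    obtain ⟨e1, e2⟩ := Prod.mk.inj heq
    rw [← hinv m, ← hinv m', e1, e2]
  · rintro ⟨a, b⟩ hab hne
    refine ⟨Finsupp.single 0 a + Finsupp.single 1 b, ?_, ?_, ?_⟩
    · rw [mem_support_iff]
      intro h0
      apply hne
      simp only [h0, map_zero, zero_mul]
    · simpa using hne
    · simp
  · intro m hm _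
    simp only [hinv]

/-- if no valuation ring of `ℂ`, trivial on `ℤ[s]`, has a pole of both `x` and `y`, then there is a
relation between `x` and `y` over `ℤ[s]` with a top monomial -/
theorem exists_top (s : σ → ℂ) {x y : ℂ} (hx : x ≠ 0) (hy : y ≠ 0)
    (h : ∀ B : ValuationSubring ℂ, (∀ P : MvPolynomial σ ℤ, aeval s P ≠ 0 → B.valuation (aeval s P) = 1) →
      ¬ (1 < B.valuation x ∧ 1 < B.valuation y)) :
    ∃ (D : ℕ) (c : ℕ → ℕ → MvPolynomial σ ℤ), aeval s (c D D) ≠ 0 ∧
      ∑ a ∈ Finset.range (D + 1), ∑ b ∈ Finset.range (D + 1), aeval s (c a b) * x ^ a * y ^ b = 0 := by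
  classical
  obtain ⟨G, hG, hG0⟩ := exists_rel_of_no_val s x⁻¹ y⁻¹ (by
    intro B hB hB2
    refine h B hB ⟨?_, ?_⟩
    · have h1 := hB2.1
      rw [map_inv₀] at h1
      exact (inv_lt_one₀ (zero_lt_iff.2 ((Valuation.ne_zero_iff _).2 hx))).1 h1
    · have h1 := hB2.2
      rw [map_inv₀] at h1
      exact (inv_lt_one₀ (zero_lt_iff.2 ((Valuation.ne_zero_iff _).2 hy))).1 h1)
  set D := G.totalDegree with hD
  set g : ℕ → ℕ → MvPolynomial σ ℤ := fun a b => G.coeff (Finsupp.single 0 a + Finsupp.single 1 b) with hg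
  refine ⟨D, fun a b => g (D - a) (D - b), ?_, ?_⟩
  · have : (Finsupp.single (0 : Fin 2) (D - D) + Finsupp.single 1 (D - D) : Fin 2 →₀ ℕ) = 0 := by simp
    simp only [hg, this]
    exact hG0
  · rw [evs_eq_sum s _ _ G le_rfl] at hG
    have h1 : x ^ D * y ^ D * ∑ a ∈ Finset.range (D + 1), ∑ b ∈ Finset.range (D + 1),
        aeval s (g a b) * x⁻¹ ^ a * y⁻¹ ^ b = 0 := by rw [hg]; simp only; rw [hG, mul_zero]
    rw [← Finset.sum_range_reflect, Finset.mul_sum] at h1
    rw [← h1]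
    refine Finset.sum_congr rfl fun a ha => ?_
    rw [← Finset.sum_range_reflect, Finset.mul_sum]
    refine Finset.sum_congr rfl fun b hb => ?_
    have ha' : a ≤ D := Nat.lt_succ_iff.1 (Finset.mem_range.1 ha)
    have hb' : b ≤ D := Nat.lt_succ_iff.1 (Finset.mem_range.1 hb)
    have e1 : D + 1 - 1 - a = D - a := by omega
    have e2 : D + 1 - 1 - b = D - b := by omega
    rw [e1, e2]
    have hxa : x ^ D = x ^ a * x ^ (D - a) := by rw [← pow_add]; congr 1; omega
    have hyb : y ^ D = y ^ b * y ^ (D - b) := by rw [← pow_add]; congr 1; omega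
    rw [hxa, hyb, inv_pow, inv_pow]
    have hx1 : x ^ (D - a) ≠ 0 := pow_ne_zero _ hx
    have hy1 : y ^ (D - b) ≠ 0 := pow_ne_zero _ hy
    generalize x ^ (D - a) = u at *
    generalize y ^ (D - b) = w at *
    field_simp
    rw [Nat.sub_sub_self hb']

end Pool.Agent.Helper11.AA
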